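import Pool.Agent.Lib.MP_17ab9e_co.Sound3

/-! The partial spread. -/

namespace Pool.Agent.Lib.MP_17ab9e_co

/-- The matrices of the thirty one members of the partial spread which are graphs over the
`x` coordinates, as lists of pairs (power of two, image). -/
def sp : List (List (ℕ × ℕ)) :=
  [[(1, 7), (2, 61), (4, 34), (8, 53), (16, 62), (32, 30)],
   [(1, 16), (2, 13), (4, 15), (8, 39), (16, 45), (32, 19)],
   [(1, 28), (2, 7), (4, 6), (8, 47), (16, 3), (32, 8)],
   [(1, 22), (2, 52), (4, 13), (8, 56), (16, 33), (32, 28)],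
   [(1, 11), (2, 63), (4, 24), (8, 6), (16, 43), (32, 59)],
   [(1, 9), (2, 62), (4, 38), (8, 37), (16, 56), (32, 48)],
   [(1, 30), (2, 23), (4, 19), (8, 54), (16, 42), (32, 43)],
   [(1, 45), (2, 29), (4, 10), (8, 27), (16, 49), (32, 5)],
   [(1, 44), (2, 8), (4, 1), (8, 11), (16, 57), (32, 60)],
   [(1, 14), (2, 36), (4, 39), (8, 20), (16, 2), (32, 53)],
   [(1, 55), (2, 26), (4, 31), (8, 3), (16, 22), (32, 41)],
   [(1, 29), (2, 4), (4, 12), (8, 40), (16, 28), (32, 63)],
   [(1, 39), (2, 1), (4, 17), (8, 51), (16, 44), (32, 52)],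
   [(1, 27), (2, 3), (4, 53), (8, 50), (16, 21), (32, 61)],
   [(1, 54), (2, 57), (4, 28), (8, 45), (16, 32), (32, 35)],
   [(1, 35), (2, 49), (4, 30), (8, 52), (16, 8), (32, 14)],
   [(1, 8), (2, 18), (4, 60), (8, 29), (16, 24), (32, 34)],
   [(1, 5), (2, 34), (4, 46), (8, 58), (16, 1), (32, 37)],
   [(1, 12), (2, 32), (4, 47), (8, 4), (16, 34), (32, 54)],
   [(1, 2), (2, 51), (4, 14), (8, 33), (16, 17), (32, 39)],
   [(1, 42), (2, 41), (4, 21), (8, 26), (16, 59), (32, 50)],
   [(1, 37), (2, 5), (4, 25), (8, 35), (16, 12), (32, 55)],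
   [(1, 46), (2, 42), (4, 36), (8, 16), (16, 18), (32, 51)],
   [(1, 1), (2, 20), (4, 5), (8, 31), (16, 7), (32, 46)],
   [(1, 33), (2, 53), (4, 22), (8, 36), (16, 40), (32, 13)],
   [(1, 61), (2, 59), (4, 45), (8, 63), (16, 31), (32, 44)],
   [(1, 50), (2, 15), (4, 55), (8, 8), (16, 38), (32, 40)],
   [(1, 24), (2, 48), (4, 35), (8, 5), (16, 10), (32, 20)],
   [(1, 51), (2, 37), (4, 9), (8, 18), (16, 36), (32, 11)],
   [(1, 43), (2, 21), (4, 42), (8, 23), (16, 46), (32, 31)],
   [(1, 0), (2, 0), (4, 0), (8, 0), (16, 0), (32, 0)]]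

/-- no repetitions -/
def nodupB : List ℕ → Bool
  | [] => true
  | a :: l => and (l.all (fun b => not (Nat.beq a b))) (nodupB l)

/-- the set of the numbers `2 * y + 1`, `y` in the list -/
def mk : List ℕ → ℕ
  | [] => 0
  | y :: l => Nat.lor (Nat.shiftLeft 2 (Nat.mul 2 y)) (mk l)

def odd7 : ℕ := 0xaaaaaaaaaaaaaaaaaaaaaaaaaaaaaaaa

def laneOK (x : ℕ) : Bool := or (Nat.beq x 0)
  (and (nodupB (sp.map (fun L => lmap L x)))
    (Nat.beq (Nat.land (Nat.shiftRight GT (Nat.mul 128 x)) odd7) (mk (sp.map (fun L => lmap L x)))))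

set_option maxRecDepth 100000 in
theorem tLane : allBelow 64 laneOK = true := by decide +kernel

theorem tOdd7 : allBelow 64 (fun y => odd7.testBit (2 * y + 1)) = true := by decide +kernel

theorem tLow : allBelow 64 (fun y => GT.testBit (2 * y + 1) == !(y == 0)) = true := by
  decide +kernel

theorem spOK : sp.all (fun L => L.all (fun e =>
    decide (e.2 < 64) && (e.1 == 1 || e.1 == 2 || e.1 == 4 || e.1 == 8 || e.1 == 16 || e.1 == 32)))
    = true := by
  decide +kernel

theorem sp_length : sp.length = 31 := by decide +kernel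

theorem nodupB_spec {l : List ℕ} (h : nodupB l = true) : l.Nodup := by
  induction l with
  | nil => exact List.nodup_nil
  | cons a l ih =>
    have h' : (l.all (fun b => not (Nat.beq a b)) && nodupB l) = true := h
    rw [Bool.and_eq_true, List.all_eq_true] at h'
    rw [List.nodup_cons]
    refine ⟨?_, ih h'.2⟩
    intro ha
    have := h'.1 a ha
    simp at this

theorem testBit_mk (l : List ℕ) (y : ℕ) : (mk l).testBit (2 * y + 1) = decide (y ∈ l) := by
  induction l with
  | nil => simp [mk]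
  | cons a l ih =>
    show (Nat.lor (Nat.shiftLeft 2 (Nat.mul 2 a)) (mk l)).testBit (2 * y + 1) = _
    rw [tlor, ih, tshl]
    have h1 : Nat.mul 2 a = 2 * a := rfl
    rw [h1]
    by_cases hay : y = a
    · subst hay
      rw [show 2 * y + 1 - 2 * y = 1 by omega]
      simp
      left; decide
    · have h2 : (decide (2 * a ≤ 2 * y + 1) && Nat.testBit 2 (2 * y + 1 - 2 * a)) = false := by
        by_cases hle : 2 * a ≤ 2 * y + 1
        · have : Nat.testBit 2 (2 * y + 1 - 2 * a) = false := by
            apply Nat.testBit_lt_two_pow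
            calc 2 < 2 ^ 2 := by norm_num
              _ ≤ 2 ^ (2 * y + 1 - 2 * a) := Nat.pow_le_pow_right (by norm_num) (by omega)
          rw [this]; simp
        · simp [hle]
      rw [h2]
      simp [hay]

theorem sp_pow {L : List (ℕ × ℕ)} (hL : L ∈ sp) : ∀ e ∈ L, ∃ i, e.1 = 2 ^ i := by
  intro e he
  have h := spOK
  rw [List.all_eq_true] at h
  have h2 := h L hL
  rw [List.all_eq_true] at h2
  have h3 := h2 e he
  simp only [Bool.and_eq_true, Bool.or_eq_true, beq_iff_eq, decide_eq_true_eq] at h3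
  rcases h3.2 with ((((h4 | h4) | h4) | h4) | h4) | h4
  · exact ⟨0, h4⟩
  · exact ⟨1, h4⟩
  · exact ⟨2, h4⟩
  · exact ⟨3, h4⟩
  · exact ⟨4, h4⟩
  · exact ⟨5, h4⟩

theorem lmap_lt {L : List (ℕ × ℕ)} (hL : ∀ e ∈ L, e.2 < 64) (x : ℕ) : lmap L x < 64 := by
  induction L with
  | nil => show 0 < 64; norm_num
  | cons e L ih =>
    obtain ⟨s, c⟩ := e
    show Nat.xor (cond (Nat.beq (Nat.land x s) 0) 0 c) (lmap L x) < 64
    apply Nat.xor_lt_two_pow (n := 6)
    · have := hL (s, c) (List.mem_cons_self ..)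
      cases Nat.beq (Nat.land x s) 0
      · exact this
      · show 0 < 2 ^ 6
        norm_num
    · exact ih (fun e he => hL e (List.mem_cons_of_mem _ he))

theorem sp_lt {L : List (ℕ × ℕ)} (hL : L ∈ sp) (x : ℕ) : lmap L x < 64 := by
  apply lmap_lt
  intro e he
  have h := spOK
  rw [List.all_eq_true] at h
  have h2 := h L hL
  rw [List.all_eq_true] at h2
  have h3 := h2 e he
  simp only [Bool.and_eq_true, decide_eq_true_eq] at h3
  exact h3.1

theorem lmap_zero (L : List (ℕ × ℕ)) : lmap L 0 = 0 := by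
  induction L with
  | nil => rfl
  | cons e L ih =>
    obtain ⟨s, c⟩ := e
    show Nat.xor (cond (Nat.beq (Nat.land 0 s) 0) 0 c) (lmap L 0) = 0
    rw [ih]
    have h1 : Nat.land 0 s = 0 := Nat.zero_and s
    have h2 : Nat.beq (Nat.land 0 s) 0 = true := by rw [h1]; rfl
    rw [h2]
    exact Nat.xor_self 0

/-- membership of `n = 64 * x + y` in the `i`-th member of the partial spread -/
def memE (i n : ℕ) : Prop :=
  if i = 0 then n / 64 = 0 else n % 64 = lmap (sp.getD (i - 1) []) (n / 64)

theorem getD_mem {i : ℕ} (hi : i < 31) : sp.getD i [] ∈ sp := by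
  rw [List.getD_eq_getElem _ _ (by rw [sp_length]; exact hi)]
  exact List.getElem_mem _

theorem memE_zero {i : ℕ} : memE i 0 := by
  unfold memE
  split
  · rfl
  · rw [show 0 / 64 = 0 from rfl, lmap_zero]

theorem memE_xor {i a b : ℕ} (hi : i < 32) (ha : memE i a) (hb : memE i b) :
    memE i (a ^^^ b) := by
  unfold memE at *
  have h1 : (a ^^^ b) / 64 = a / 64 ^^^ b / 64 := by
    have h1 : (a ^^^ b) / 2 ^ 6 = a / 2 ^ 6 ^^^ b / 2 ^ 6 := Nat.xor_div_two_pow
    norm_num at h1
    exact h1
  have h2 : (a ^^^ b) % 64 = a % 64 ^^^ b % 64 := by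
    have h1 : (a ^^^ b) % 2 ^ 6 = a % 2 ^ 6 ^^^ b % 2 ^ 6 := Nat.xor_mod_two_pow
    norm_num at h1
    exact h1
  split
  · next h =>
    rw [if_pos h] at ha hb
    rw [h1, ha, hb]; rfl
  · next h =>
    rw [if_neg h] at ha hb
    rw [h1, h2, lmap_xor _ (sp_pow (getD_mem (by omega))), ha, hb]

theorem memE_inj {i j n : ℕ} (hi : i < 32) (hj : j < 32) (hij : i ≠ j) (hn : n < 4096)
    (h1 : memE i n) (h2 : memE j n) : n = 0 := by
  have key : ∀ i j : ℕ, i < 32 → j < 32 → i = 0 → j ≠ 0 → memE i n → memE j n → n = 0 := by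
    intro i j _ hj hi0 hj0 h1 h2
    unfold memE at h1 h2
    rw [if_pos hi0] at h1
    rw [if_neg hj0, h1, lmap_zero] at h2
    omega
  by_cases hi0 : i = 0
  · exact key i j hi hj hi0 (fun h => hij (by rw [hi0, h])) h1 h2
  by_cases hj0 : j = 0
  · exact key j i hj hi hj0 hi0 h2 h1
  unfold memE at h1 h2
  rw [if_neg hi0] at h1
  rw [if_neg hj0] at h2
  have h := allBelow_spec tLane (n / 64) (by omega)
  unfold laneOK at h
  rw [Bool.or_eq_true, Bool.and_eq_true, beq0_iff] at h
  rcases h with h | ⟨h, -⟩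
  · rw [h, lmap_zero] at h1
    omega
  · exfalso
    have hnd := nodupB_spec h
    have heq := List.inj_on_of_nodup_map hnd (getD_mem (i := i - 1) (by omega))
      (getD_mem (i := j - 1) (by omega)) (by rw [← h1, ← h2])
    have hnd2 : sp.Nodup := List.Nodup.of_map _ hnd
    rw [List.getD_eq_getElem _ _ (by rw [sp_length]; omega),
      List.getD_eq_getElem _ _ (by rw [sp_length]; omega)] at heq
    rw [List.Nodup.getElem_inj_iff hnd2] at heq
    omega

theorem GT_iff {n : ℕ} (hn : n < 4096) :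
    GT.testBit (2 * n + 1) = true ↔ n ≠ 0 ∧ ∃ i < 32, memE i n := by
  by_cases hx : n / 64 = 0
  · have h := allBelow_spec tLow n (by omega)
    rw [beq_iff_eq] at h
    rw [h]
    constructor
    · intro h2
      refine ⟨by simpa using h2, 0, by norm_num, ?_⟩
      unfold memE
      rw [if_pos rfl]; exact hx
    · rintro ⟨h2, -⟩
      simpa using h2
  · have h := allBelow_spec tLane (n / 64) (by omega)
    unfold laneOK at h
    rw [Bool.or_eq_true, Bool.and_eq_true, beq0_iff] at h
    rcases h with h | ⟨-, h⟩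
    · exact absurd h hx
    have h2 := Nat.eq_of_beq_eq_true h
    have h3 := congrArg (fun t => Nat.testBit t (2 * (n % 64) + 1)) h2
    simp only [tland, tshr] at h3
    have h4 := allBelow_spec tOdd7 (n % 64) (Nat.mod_lt _ (by norm_num))
    rw [h4, Bool.and_true, testBit_mk] at h3
    have h5 : Nat.mul 128 (n / 64) + (2 * (n % 64) + 1) = 2 * n + 1 := by
      show 128 * (n / 64) + (2 * (n % 64) + 1) = 2 * n + 1
      omega
    rw [h5] at h3
    rw [h3, decide_eq_true_eq, List.mem_map]
    constructor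
    · rintro ⟨L, hL, hLx⟩
      refine ⟨by rintro rfl; exact hx rfl, ?_⟩
      obtain ⟨k, hk, rfl⟩ := List.getElem_of_mem hL
      rw [sp_length] at hk
      refine ⟨k + 1, by omega, ?_⟩
      unfold memE
      rw [if_neg (by omega), Nat.add_sub_cancel, List.getD_eq_getElem _ _ (by rw [sp_length]; exact hk)]
      exact hLx.symm
    · rintro ⟨-, i, hi, hm⟩
      unfold memE at hm
      by_cases hi0 : i = 0
      · rw [if_pos hi0] at hm
        exact absurd hm hx
      · rw [if_neg hi0] at hm
        exact ⟨_, getD_mem (by omega), hm.symm⟩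

/-- each member has 64 elements -/
theorem memE_card {i : ℕ} (hi : i < 32) (S : Finset ℕ)
    (hS : ∀ n, n ∈ S ↔ n < 4096 ∧ memE i n) : S.card = 64 := by
  classical
  by_cases hi0 : i = 0
  · have : S = Finset.range 64 := by
      ext n
      rw [hS, Finset.mem_range]
      unfold memE
      rw [if_pos hi0]
      omega
    rw [this, Finset.card_range]
  · have : S = (Finset.range 64).image (fun x => 64 * x + lmap (sp.getD (i - 1) []) x) := by
      ext n
      rw [hS, Finset.mem_image]
      unfold memE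
      rw [if_neg hi0]
      constructor
      · rintro ⟨h1, h2⟩
        refine ⟨n / 64, Finset.mem_range.2 (by omega), ?_⟩
        rw [← h2]; omega
      · rintro ⟨x, hx, rfl⟩
        rw [Finset.mem_range] at hx
        have hlt := sp_lt (getD_mem (i := i - 1) (by omega)) x
        refine ⟨by omega, ?_⟩
        rw [show (64 * x + lmap (sp.getD (i - 1) []) x) / 64 = x by omega]
        omega
    rw [this, Finset.card_image_of_injOn, Finset.card_range]
    intro x hx y hy hxy
    simp only at hxy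
    have h1 := sp_lt (getD_mem (i := i - 1) (by omega)) x
    have h2 := sp_lt (getD_mem (i := i - 1) (by omega)) y
    omega

end Pool.Agent.Lib.MP_17ab9e_co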