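import Pool.Agent.Lib.MP_17ab9e_co.Sound5
import Pool.Agent.Lib.MP_17ab9e_co.Spread

/-! From vectors to numbers. -/

namespace Pool.Agent.Lib.MP_17ab9e_co

attribute [-instance] AddSubgroupClass.instZModModule

/-- a vector over the two element field as a natural number -/
def enc {n : ℕ} (v : Fin n → ZMod 2) : ℕ := Nat.ofBits (fun i => decide (v i = 1))

theorem enc_lt {n : ℕ} (v : Fin n → ZMod 2) : enc v < 2 ^ n := Nat.ofBits_lt_two_pow _

theorem enc_testBit_lt {n : ℕ} (v : Fin n → ZMod 2) (j : ℕ) (hj : j < n) :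
    (enc v).testBit j = decide (v ⟨j, hj⟩ = 1) := Nat.testBit_ofBits_lt _ _ hj

theorem enc_testBit_ge {n : ℕ} (v : Fin n → ZMod 2) (j : ℕ) (hj : n ≤ j) :
    (enc v).testBit j = false := Nat.testBit_ofBits_ge _ _ hj

theorem z2 (a b : ZMod 2) : decide (a + b = 1) = (decide (a = 1) ^^ decide (b = 1)) := by
  revert a b; decide

theorem enc_add {n : ℕ} (v w : Fin n → ZMod 2) : enc (v + w) = enc v ^^^ enc w := by
  apply Nat.eq_of_testBit_eq
  intro j
  rw [Nat.testBit_xor]
  by_cases hj : j < n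
  · rw [enc_testBit_lt _ _ hj, enc_testBit_lt _ _ hj, enc_testBit_lt _ _ hj, Pi.add_apply, z2]
  · rw [enc_testBit_ge _ _ (by omega), enc_testBit_ge _ _ (by omega),
      enc_testBit_ge _ _ (by omega)]
    rfl

theorem enc_inj {n : ℕ} {v w : Fin n → ZMod 2} (h : enc v = enc w) : v = w := by
  funext i
  have h1 : (enc v).testBit i = (enc w).testBit i := by rw [h]
  rw [enc_testBit_lt _ _ i.2, enc_testBit_lt _ _ i.2] at h1
  have h2 : ∀ a b : ZMod 2, decide (a = 1) = decide (b = 1) → a = b := by decide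
  exact h2 _ _ h1

theorem enc_surj {n : ℕ} {m : ℕ} (hm : m < 2 ^ n) : ∃ v : Fin n → ZMod 2, enc v = m := by
  refine ⟨fun i => if m.testBit i then 1 else 0, ?_⟩
  apply Nat.eq_of_testBit_eq
  intro j
  by_cases hj : j < n
  · rw [enc_testBit_lt _ _ hj]
    cases m.testBit j <;> simp
  · rw [enc_testBit_ge _ _ (by omega), Nat.testBit_lt_two_pow]
    exact lt_of_lt_of_le hm (Nat.pow_le_pow_right (by norm_num) (by omega))

theorem enc_zero {n : ℕ} : enc (0 : Fin n → ZMod 2) = 0 := by
  apply Nat.eq_of_testBit_eq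
  intro j
  rw [Nat.zero_testBit]
  by_cases hj : j < n
  · rw [enc_testBit_lt _ _ hj]; simp
  · rw [enc_testBit_ge _ _ (by omega)]

theorem enc_cons {n : ℕ} (e : ZMod 2) (v : Fin n → ZMod 2) :
    enc (Fin.cons e v : Fin (n + 1) → ZMod 2) = 2 * enc v + (if e = 1 then 1 else 0) := by
  apply Nat.eq_of_testBit_eq
  intro j
  cases j with
  | zero =>
    rw [enc_testBit_lt _ _ (Nat.succ_pos n), Nat.testBit_zero]
    have : (Fin.cons e v : Fin (n + 1) → ZMod 2) ⟨0, Nat.succ_pos n⟩ = e := rfl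
    rw [this]
    split <;> simp_all
  | succ j =>
    rw [Nat.testBit_succ (2 * enc v + (if e = 1 then 1 else 0)) j]
    have h1 : (2 * enc v + (if e = 1 then 1 else 0)) / 2 = enc v := by
      split <;> omega
    rw [h1]
    by_cases hj : j < n
    · rw [enc_testBit_lt _ _ (Nat.succ_lt_succ hj), enc_testBit_lt _ _ hj]
      rfl
    · rw [enc_testBit_ge _ _ (by omega), enc_testBit_ge _ _ (by omega)]

/-- the Boolean function -/
def fn (v : Fin 12 → ZMod 2) : ZMod 2 := if GT.testBit (2 * enc v + 1) then 1 else 0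

theorem graph_mem (v : Fin 12 → ZMod 2) :
    GT.testBit (enc (Fin.cons (fn v) v : Fin 13 → ZMod 2)) = true := by
  rw [enc_cons]
  unfold fn
  by_cases h : GT.testBit (2 * enc v + 1) = true
  · rw [if_pos h, if_pos rfl, h]
  · rw [if_neg h, if_neg (by decide), add_zero]
    have h1 := Nat.eq_of_beq_eq_true tGraph
    have h2 := congrArg (fun t => Nat.testBit t (2 * enc v)) h1
    have hlt : 2 * enc v < 8192 := by
      have := enc_lt v
      norm_num at this
      omega
    have h3 : m0.testBit (2 * enc v) = true := by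
      have h4 := hM 0 (by norm_num) (2 * enc v) hlt
      have h5 : (2 * enc v).testBit 0 = false := by rw [Nat.testBit_zero]; simp
      rw [h5] at h4
      exact h4
    simp only [tland, txor, tshr, h3, Bool.and_true] at h2
    rw [show 1 + 2 * enc v = 2 * enc v + 1 by omega] at h2
    have h6 : GT.testBit (2 * enc v + 1) = false := by simpa using h
    rw [h6, Bool.xor_false] at h2
    exact h2

/-- A subspace given by a property of the codes. -/
def subm (P : ℕ → Prop) (h0 : P 0) (hx : ∀ a b, P a → P b → P (a ^^^ b)) :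
    Submodule (ZMod 2) (Fin 12 → ZMod 2) where
  carrier := {v | P (enc v)}
  add_mem' := by
    intro a b ha hb
    show P (enc (a + b))
    rw [enc_add]
    exact hx _ _ ha hb
  zero_mem' := by
    show P (enc 0)
    rw [enc_zero]; exact h0
  smul_mem' := by
    intro c v hv
    have : c = 0 ∨ c = 1 := by revert c; decide
    rcases this with rfl | rfl
    · rw [zero_smul]
      show P (enc 0)
      rw [enc_zero]; exact h0
    · rw [one_smul]; exact hv

theorem mem_subm {P : ℕ → Prop} {h0 : P 0} {hx : ∀ a b, P a → P b → P (a ^^^ b)}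
    {v : Fin 12 → ZMod 2} : v ∈ subm P h0 hx ↔ P (enc v) := Iff.rfl

/-- the members of the partial spread -/
def E (i : Fin 32) : Submodule (ZMod 2) (Fin 12 → ZMod 2) :=
  subm (memE i) memE_zero (fun _ _ ha hb => memE_xor i.2 ha hb)

theorem finrank_E (i : Fin 32) : Module.finrank (ZMod 2) (E i) = 6 := by
  classical
  have h1 : Fintype.card (E i) = 64 := by
    have h2 : (Finset.univ.filter (fun v => v ∈ E i)).card = Fintype.card (E i) :=
      (Fintype.card_subtype _).symm
    rw [← h2, ← Finset.card_image_of_injective _ (fun v w => enc_inj (n := 12))]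
    apply memE_card i.2
    intro n
    rw [Finset.mem_image]
    constructor
    · rintro ⟨v, hv, rfl⟩
      rw [Finset.mem_filter] at hv
      exact ⟨enc_lt v, hv.2⟩
    · rintro ⟨hn, hm⟩
      obtain ⟨v, rfl⟩ := enc_surj (n := 12) hn
      exact ⟨v, Finset.mem_filter.2 ⟨Finset.mem_univ _, hm⟩, rfl⟩
  have h2 := Module.card_eq_pow_finrank (K := ZMod 2) (V := E i)
  rw [h1, ZMod.card] at h2
  have h3 : (2 : ℕ) ^ 6 = 2 ^ Module.finrank (ZMod 2) (E i) := by rw [← h2]; norm_num
  exact (Nat.pow_right_injective le_rfl h3).symm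

theorem E_inf (i j : Fin 32) (hij : i ≠ j) : E i ⊓ E j = ⊥ := by
  rw [Submodule.eq_bot_iff]
  intro v hv
  rw [Submodule.mem_inf] at hv
  have h1 : memE i (enc v) := hv.1
  have h2 : memE j (enc v) := hv.2
  have h3 : enc v = 0 := memE_inj i.2 j.2 (fun h => hij (Fin.ext h)) (enc_lt v) h1 h2
  apply enc_inj (n := 12)
  rw [h3, enc_zero]

theorem fn_eq_one_iff (v : Fin 12 → ZMod 2) : fn v = 1 ↔ v ≠ 0 ∧ ∃ i, v ∈ E i := by
  have h1 : fn v = 1 ↔ GT.testBit (2 * enc v + 1) = true := by
    unfold fn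
    split <;> simp_all
  rw [h1, GT_iff (enc_lt v)]
  constructor
  · rintro ⟨h2, i, hi, hm⟩
    refine ⟨?_, ⟨i, hi⟩, hm⟩
    rintro rfl
    exact h2 enc_zero
  · rintro ⟨h2, i, hm⟩
    refine ⟨?_, i, i.2, hm⟩
    intro h3
    apply h2
    apply enc_inj (n := 12)
    rw [h3, enc_zero]

/-- The function is affine on no flat of dimension six. -/
theorem not_affine (V : Submodule (ZMod 2) (Fin 12 → ZMod 2)) (c a : Fin 12 → ZMod 2)
    (b : ZMod 2) (hV : Module.finrank (ZMod 2) V = 6)
    (hf : ∀ v ∈ V, fn (c + v) = (∑ i, a i * (c + v) i) + b) : False := by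
  classical
  set lam : (Fin 12 → ZMod 2) → ZMod 2 := fun v => ∑ i, a i * v i with hlam
  have hladd : ∀ v w, lam (v + w) = lam v + lam w := by
    intro v w
    simp only [hlam, Pi.add_apply, mul_add, Finset.sum_add_distrib]
  set P : (Fin 12 → ZMod 2) → (Fin 13 → ZMod 2) := fun v => Fin.cons (lam v) v with hP
  set Q : (Fin 12 → ZMod 2) → (Fin 13 → ZMod 2) :=
    fun v => Fin.cons (fn (c + v)) (c + v) with hQ
  have hPP : ∀ v w, P v + P w = P (v + w) := by
    intro v w
    funext i
    refine Fin.cases ?_ (fun i => ?_) i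
    · simp [hP, hladd]
    · simp [hP]
  have hQP : ∀ v ∈ V, ∀ w ∈ V, Q v + P w = Q (v + w) := by
    intro v hv w hw
    funext i
    refine Fin.cases ?_ (fun i => ?_) i
    · have h1 := hf v hv
      have h2 := hf (v + w) (V.add_mem hv hw)
      have h3 : fn (c + v) = lam (c + v) + b := h1
      have h4 : fn (c + (v + w)) = lam (c + (v + w)) + b := h2
      simp only [hP, hQ, Pi.add_apply, Fin.cons_zero]
      rw [h3, h4, ← add_assoc c v w, hladd (c + v) w]
      ring
    · simp [hP, hQ, add_assoc]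
  have hzz : ∀ x : ZMod 2, x + x = 0 := by decide
  have hQQ : ∀ v ∈ V, ∀ w ∈ V, Q v + Q w = P (v + w) := by
    intro v hv w hw
    have h1 := hQP v hv (v + w) (V.add_mem hv hw)
    have h2 : v + (v + w) = w := by
      funext i
      simp only [Pi.add_apply]
      rw [← add_assoc, hzz, zero_add]
    rw [h2] at h1
    rw [← h1]
    funext i
    simp only [Pi.add_apply]
    rw [← add_assoc, hzz, zero_add]
  set SV := Finset.univ.filter (fun v => v ∈ V) with hSV
  have hSVm : ∀ v, v ∈ SV ↔ v ∈ V := by intro v; simp [hSV]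
  have hSVc : SV.card = 64 := by
    have h2 : SV.card = Fintype.card V := (Fintype.card_subtype _).symm
    rw [h2, Module.card_eq_pow_finrank (K := ZMod 2) (V := V), hV, ZMod.card]
    norm_num
  apply no_bad (SV.image (fun v => enc (P v))) (SV.image (fun v => enc (Q v)))
  refine ⟨?_, ?_, ?_, ?_, ?_, ?_, ?_, ?_, ?_⟩
  · intro w hw
    rw [Finset.mem_image] at hw
    obtain ⟨v, -, rfl⟩ := hw
    exact lt_of_lt_of_eq (enc_lt _) (by norm_num)
  · intro w hw
    rw [Finset.mem_image] at hw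
    obtain ⟨v, -, rfl⟩ := hw
    exact lt_of_lt_of_eq (enc_lt _) (by norm_num)
  · intro x hx y hy
    rw [Finset.mem_image] at hx hy ⊢
    obtain ⟨v, hv, rfl⟩ := hx
    obtain ⟨w, hw, rfl⟩ := hy
    rw [hSVm] at hv hw
    exact ⟨v + w, (hSVm _).2 (V.add_mem hv hw), by rw [← enc_add, hPP]⟩
  · rw [Finset.card_image_of_injective, hSVc]
    intro v w hvw
    have h1 : P v = P w := enc_inj hvw
    exact (Fin.cons_inj.1 h1).2
  · intro x hx y hy
    rw [Finset.mem_image] at hx hy ⊢
    obtain ⟨v, hv, rfl⟩ := hx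
    obtain ⟨w, hw, rfl⟩ := hy
    rw [hSVm] at hv hw
    exact ⟨v + w, (hSVm _).2 (V.add_mem hv hw), by rw [← enc_add, hQP v hv w hw]⟩
  · intro x hx y hy
    rw [Finset.mem_image] at hx hy ⊢
    obtain ⟨v, hv, rfl⟩ := hx
    obtain ⟨w, hw, rfl⟩ := hy
    rw [hSVm] at hv hw
    exact ⟨v + w, (hSVm _).2 (V.add_mem hv hw), by rw [← enc_add, hQQ v hv w hw]⟩
  · refine Finset.Nonempty.image ⟨0, (hSVm _).2 V.zero_mem⟩ _
  · intro x hx
    rw [Finset.mem_image] at hx
    obtain ⟨v, -, rfl⟩ := hx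
    exact graph_mem (c + v)
  · intro h1
    rw [Finset.mem_image] at h1
    obtain ⟨v, -, hv⟩ := h1
    have h2 : 2 * enc v + (if lam v = 1 then 1 else 0) = 1 :=
      (enc_cons (lam v) v).symm.trans hv
    have h3 : enc v = 0 := by
      split at h2 <;> omega
    have h4 : v = 0 := enc_inj (by rw [h3, enc_zero])
    have h5 : lam v = 0 := by rw [h4]; simp [hlam]
    rw [h5, if_neg (by decide), h3] at h2
    omega

end Pool.Agent.Lib.MP_17ab9e_co
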