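import Pool.Agent.Lib.MP_17ab9e_co.Core

namespace Pool.Agent.Lib.MP_17ab9e_co

set_option maxRecDepth 100000

theorem tA3 : dfs sched 3 GT = true := by
  decide +kernel

end Pool.Agent.Lib.MP_17ab9e_co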