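import Pool.Agent.Lib.MP_17ab9e_co.Core

namespace Pool.Agent.Lib.MP_17ab9e_co

set_option maxRecDepth 100000

theorem tPh : allBelow 8192 phOK = true := by
  decide +kernel

theorem tOrb : allBelow 64 orbOK = true := by
  decide +kernel

theorem tMask : (List.range 13).all (fun i =>
    Nat.beq (Nat.land (Nat.xor (M i) (Nat.shiftLeft (M i) (2^i))) full) full) = true := by
  decide +kernel

theorem tGraph : Nat.beq (Nat.land (Nat.xor GT (Nat.shiftRight GT 1)) m0) m0 = true := by
  decide +kernel

end Pool.Agent.Lib.MP_17ab9e_co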