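import Pool.Agent.Lib.MP_17ab9e_co.Core

namespace Pool.Agent.Lib.MP_17ab9e_co

set_option maxRecDepth 100000

theorem tB_2_3_X0 : stepA m2 4 m3 8
    [(m0, 1)]
    [(m0, 1)] X0 = true := by
  decide +kernel

theorem tB_2_4_X0 : stepA m2 4 m4 16
    [(m0, 1)]
    [(m3, 8), (m0, 1)] X0 = true := by
  decide +kernel

theorem tB_3_4_X0 : stepA m3 8 m4 16
    [(m2, 4), (m0, 1)]
    [(m2, 4), (m0, 1)] X0 = true := by
  decide +kernel

theorem tB_2_5_X0 : stepA m2 4 m5 32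
    [(m0, 1)]
    [(m4, 16), (m3, 8), (m0, 1)] X0 = true := by
  decide +kernel

theorem tB_3_5_X0 : stepA m3 8 m5 32
    [(m2, 4), (m0, 1)]
    [(m4, 16), (m2, 4), (m0, 1)] X0 = true := by
  decide +kernel

theorem tB_4_5_X0 : stepA m4 16 m5 32
    [(m3, 8), (m2, 4), (m0, 1)]
    [(m3, 8), (m2, 4), (m0, 1)] X0 = true := by
  decide +kernel

theorem tB_2_6_X0 : stepA m2 4 m6 64
    [(m0, 1)]
    [(m5, 32), (m4, 16), (m3, 8), (m0, 1)] X0 = true := by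
  decide +kernel

theorem tB_3_6_X0 : stepA m3 8 m6 64
    [(m2, 4), (m0, 1)]
    [(m5, 32), (m4, 16), (m2, 4), (m0, 1)] X0 = true := by
  decide +kernel

theorem tB_4_6_X0 : stepA m4 16 m6 64
    [(m3, 8), (m2, 4), (m0, 1)]
    [(m5, 32), (m3, 8), (m2, 4), (m0, 1)] X0 = true := by
  decide +kernel

theorem tB_5_6_X0 : stepA m5 32 m6 64
    [(m4, 16), (m3, 8), (m2, 4), (m0, 1)]
    [(m4, 16), (m3, 8), (m2, 4), (m0, 1)] X0 = true := by
  decide +kernel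

theorem tB_2_7_X0 : stepA m2 4 m7 128
    [(m0, 1)]
    [(m6, 64), (m5, 32), (m4, 16), (m3, 8), (m0, 1)] X0 = true := by
  decide +kernel

theorem tB_3_7_X0 : stepA m3 8 m7 128
    [(m2, 4), (m0, 1)]
    [(m6, 64), (m5, 32), (m4, 16), (m2, 4), (m0, 1)] X0 = true := by
  decide +kernel

theorem tB_4_7_X0 : stepA m4 16 m7 128
    [(m3, 8), (m2, 4), (m0, 1)]
    [(m6, 64), (m5, 32), (m3, 8), (m2, 4), (m0, 1)] X0 = true := by
  decide +kernel

theorem tB_5_7_X0 : stepA m5 32 m7 128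
    [(m4, 16), (m3, 8), (m2, 4), (m0, 1)]
    [(m6, 64), (m4, 16), (m3, 8), (m2, 4), (m0, 1)] X0 = true := by
  decide +kernel

theorem tB_6_7_X0 : stepA m6 64 m7 128
    [(m5, 32), (m4, 16), (m3, 8), (m2, 4), (m0, 1)]
    [(m5, 32), (m4, 16), (m3, 8), (m2, 4), (m0, 1)] X0 = true := by
  decide +kernel

theorem tB_2_8_X0 : stepA m2 4 m8 256
    [(m0, 1)]
    [(m7, 128), (m6, 64), (m5, 32), (m4, 16), (m3, 8), (m0, 1)] X0 = true := by
  decide +kernel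

theorem tB_3_8_X0 : stepA m3 8 m8 256
    [(m2, 4), (m0, 1)]
    [(m7, 128), (m6, 64), (m5, 32), (m4, 16), (m2, 4), (m0, 1)] X0 = true := by
  decide +kernel

theorem tB_4_8_X0 : stepA m4 16 m8 256
    [(m3, 8), (m2, 4), (m0, 1)]
    [(m7, 128), (m6, 64), (m5, 32), (m3, 8), (m2, 4), (m0, 1)] X0 = true := by
  decide +kernel

theorem tB_5_8_X0 : stepA m5 32 m8 256
    [(m4, 16), (m3, 8), (m2, 4), (m0, 1)]
    [(m7, 128), (m6, 64), (m4, 16), (m3, 8), (m2, 4), (m0, 1)] X0 = true := by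
  decide +kernel

theorem tB_6_8_X0 : stepA m6 64 m8 256
    [(m5, 32), (m4, 16), (m3, 8), (m2, 4), (m0, 1)]
    [(m7, 128), (m5, 32), (m4, 16), (m3, 8), (m2, 4), (m0, 1)] X0 = true := by
  decide +kernel

theorem tB_7_8_X0 : stepA m7 128 m8 256
    [(m6, 64), (m5, 32), (m4, 16), (m3, 8), (m2, 4), (m0, 1)]
    [(m6, 64), (m5, 32), (m4, 16), (m3, 8), (m2, 4), (m0, 1)] X0 = true := by
  decide +kernel

theorem tB_2_9_X0 : stepA m2 4 m9 512
    [(m0, 1)]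
    [(m8, 256), (m7, 128), (m6, 64), (m5, 32), (m4, 16), (m3, 8), (m0, 1)] X0 = true := by
  decide +kernel

theorem tB_3_9_X0 : stepA m3 8 m9 512
    [(m2, 4), (m0, 1)]
    [(m8, 256), (m7, 128), (m6, 64), (m5, 32), (m4, 16), (m2, 4), (m0, 1)] X0 = true := by
  decide +kernel

theorem tB_4_9_X0 : stepA m4 16 m9 512
    [(m3, 8), (m2, 4), (m0, 1)]
    [(m8, 256), (m7, 128), (m6, 64), (m5, 32), (m3, 8), (m2, 4), (m0, 1)] X0 = true := by
  decide +kernel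

theorem tB_5_9_X0 : stepA m5 32 m9 512
    [(m4, 16), (m3, 8), (m2, 4), (m0, 1)]
    [(m8, 256), (m7, 128), (m6, 64), (m4, 16), (m3, 8), (m2, 4), (m0, 1)] X0 = true := by
  decide +kernel

theorem tB_6_9_X0 : stepA m6 64 m9 512
    [(m5, 32), (m4, 16), (m3, 8), (m2, 4), (m0, 1)]
    [(m8, 256), (m7, 128), (m5, 32), (m4, 16), (m3, 8), (m2, 4), (m0, 1)] X0 = true := by
  decide +kernel

theorem tB_7_9_X0 : stepA m7 128 m9 512
    [(m6, 64), (m5, 32), (m4, 16), (m3, 8), (m2, 4), (m0, 1)]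
    [(m8, 256), (m6, 64), (m5, 32), (m4, 16), (m3, 8), (m2, 4), (m0, 1)] X0 = true := by
  decide +kernel

theorem tB_8_9_X0 : stepA m8 256 m9 512
    [(m7, 128), (m6, 64), (m5, 32), (m4, 16), (m3, 8), (m2, 4), (m0, 1)]
    [(m7, 128), (m6, 64), (m5, 32), (m4, 16), (m3, 8), (m2, 4), (m0, 1)] X0 = true := by
  decide +kernel

end Pool.Agent.Lib.MP_17ab9e_co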