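import Pool.Agent.Lib.MP_17ab9e_co.Core

/-! Correctness of the bit manipulations. -/

namespace Pool.Agent.Lib.MP_17ab9e_co

theorem tland (a b z : ℕ) : Nat.testBit (Nat.land a b) z = (a.testBit z && b.testBit z) :=
  Nat.testBit_and a b z
theorem tlor (a b z : ℕ) : Nat.testBit (Nat.lor a b) z = (a.testBit z || b.testBit z) :=
  Nat.testBit_or a b z
theorem txor (a b z : ℕ) : Nat.testBit (Nat.xor a b) z = (a.testBit z ^^ b.testBit z) :=
  Nat.testBit_xor a b z
theorem tshl (a s z : ℕ) :
    Nat.testBit (Nat.shiftLeft a s) z = (decide (s ≤ z) && a.testBit (z - s)) :=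
  Nat.testBit_shiftLeft a
theorem tshr (a s z : ℕ) : Nat.testBit (Nat.shiftRight a s) z = a.testBit (s + z) :=
  Nat.testBit_shiftRight a

theorem tb_eq (X z : ℕ) : tb X z = X.testBit z := by
  unfold tb Nat.testBit
  have h : Nat.land (Nat.shiftRight X z) 1 = 1 &&& (X >>> z) := by
    change (X >>> z) &&& 1 = _
    rw [Nat.and_comm]
  rw [h]
  have h2 : 1 &&& (X >>> z) = 0 ∨ 1 &&& (X >>> z) = 1 := by
    rw [Nat.one_and_eq_mod_two]; omega
  rcases h2 with h2 | h2 <;> rw [h2] <;> rfl

theorem beq0_iff (a : ℕ) : Nat.beq a 0 = true ↔ a = 0 := by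
  constructor
  · intro h; exact Nat.eq_of_beq_eq_true h
  · intro h; rw [h]; rfl

theorem land_two_pow_beq (u i : ℕ) : Nat.beq (Nat.land u (2 ^ i)) 0 = !(u.testBit i) := by
  have h : Nat.land u (2 ^ i) = (u.testBit i).toNat * 2 ^ i := Nat.and_two_pow u i
  rw [h]
  cases hb : u.testBit i
  · simp
  · simp only [Bool.toNat_true, one_mul, Bool.not_true]
    rw [Bool.eq_false_iff]
    intro hc
    have := (beq0_iff _).1 hc
    exact absurd this (by positivity)

/-- `m` is the mask of the numbers below `8192` whose bit `i` is zero. -/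
def IsMask (m i : ℕ) : Prop := ∀ z < 8192, m.testBit z = !(z.testBit i)

theorem xor_lt {a b : ℕ} (ha : a < 8192) (hb : b < 8192) : a ^^^ b < 8192 :=
  Nat.xor_lt_two_pow (n := 13) ha hb

theorem isMask_of (m i : ℕ)
    (h : Nat.land (Nat.xor m (Nat.shiftLeft m (2 ^ i))) full = full) : IsMask m i := by
  have hfull : ∀ z < 8192, full.testBit z = true := by
    intro z hz
    have : full = 2 ^ 8192 - 1 := by decide +kernel
    rw [this, Nat.testBit_two_pow_sub_one]
    simpa using hz
  have key : ∀ z < 8192, (m.testBit z ^^ (decide (2 ^ i ≤ z) && m.testBit (z - 2 ^ i))) = true := by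
    intro z hz
    have h1 := congrArg (fun t => Nat.testBit t z) h
    simp only [tland, txor, tshl, hfull z hz, Bool.and_true] at h1
    exact h1
  intro z
  induction z using Nat.strong_induction_on with
  | _ z ih =>
    intro hz
    have h1 := key z hz
    by_cases hle : 2 ^ i ≤ z
    · have hp : 0 < 2 ^ i := by positivity
      have h2 := ih (z - 2 ^ i) (by omega) (by omega)
      have h3 : z.testBit i = !((z - 2 ^ i).testBit i) := by
        conv_lhs => rw [show z = 2 ^ i + (z - 2 ^ i) by omega]
        rw [Nat.testBit_two_pow_add_eq]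
      simp only [hle, decide_true, Bool.true_and] at h1
      rw [h2] at h1
      rw [h3]
      revert h1
      cases m.testBit z <;> cases (z - 2 ^ i).testBit i <;> simp
    · have h3 : z.testBit i = false := Nat.testBit_lt_two_pow (by omega)
      simp only [hle, decide_false, Bool.false_and, Bool.xor_false] at h1
      rw [h1, h3]; rfl

theorem add_eq_xor {w i : ℕ} (h : w.testBit i = false) : 2 ^ i + w = 2 ^ i ^^^ w := by
  apply Nat.eq_of_testBit_eq
  intro j
  rw [Nat.testBit_xor, Nat.testBit_two_pow]
  rcases lt_trichotomy j i with hj | hj | hj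
  · rw [Nat.testBit_two_pow_add_gt hj]
    have : decide (i = j) = false := by simp; omega
    rw [this]; simp
  · subst hj
    rw [Nat.testBit_two_pow_add_eq]
    simp
  · have h1 : w / 2 ^ i % 2 = 0 := by
      rw [Nat.testBit_eq_decide_div_mod_eq] at h
      simp at h
      omega
    have h2 : w % 2 ^ (i + 1) < 2 ^ i := by
      rw [Nat.mod_pow_succ, h1]
      simp only [mul_zero, add_zero]
      exact Nat.mod_lt _ (by positivity)
    have h3 : (2 ^ i + w) / 2 ^ (i + 1) = w / 2 ^ (i + 1) := by
      have hw := Nat.div_add_mod w (2 ^ (i + 1))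
      conv_lhs => rw [← hw]
      rw [show 2 ^ i + (2 ^ (i + 1) * (w / 2 ^ (i + 1)) + w % 2 ^ (i + 1))
        = (2 ^ i + w % 2 ^ (i + 1)) + 2 ^ (i + 1) * (w / 2 ^ (i + 1)) by ring]
      rw [Nat.add_mul_div_left _ _ (by positivity), Nat.div_eq_of_lt]
      · simp
      · rw [pow_succ] at *; omega
    have h4 : ∀ x : ℕ, x.testBit j = (x / 2 ^ (i + 1)).testBit (j - (i + 1)) := by
      intro x
      rw [Nat.testBit_div_two_pow]
      congr 1
      omega
    rw [h4, h3, ← h4]
    have : decide (i = j) = false := by simp; omega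
    rw [this]; simp

theorem xor_two_pow_of_true {z i : ℕ} (h : z.testBit i = true) : z ^^^ 2 ^ i = z - 2 ^ i := by
  have hle : 2 ^ i ≤ z := Nat.ge_two_pow_of_testBit h
  obtain ⟨w, rfl⟩ : ∃ w, z = 2 ^ i + w := ⟨z - 2 ^ i, by omega⟩
  rw [Nat.add_sub_cancel_left]
  rw [Nat.testBit_two_pow_add_eq] at h
  have hw : w.testBit i = false := by simpa using h
  rw [add_eq_xor hw, Nat.xor_comm (2 ^ i) w, Nat.xor_assoc, Nat.xor_self, Nat.xor_zero]

theorem xor_two_pow_of_false {z i : ℕ} (h : z.testBit i = false) : z ^^^ 2 ^ i = z + 2 ^ i := by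
  rw [add_comm, add_eq_xor h, Nat.xor_comm]

theorem testBit_bf {m i : ℕ} (hi : i < 13) (hm : IsMask m i) (X z : ℕ) (hz : z < 8192) :
    (bf m (2 ^ i) X).testBit z = X.testBit (z ^^^ 2 ^ i) := by
  unfold bf
  rw [tlor, tshl, tland, tland, tshr, hm z hz]
  have hlt : (2 : ℕ) ^ i < 8192 := by
    calc (2 : ℕ) ^ i < 2 ^ 13 := Nat.pow_lt_pow_right (by norm_num) hi
      _ = 8192 := by norm_num
  by_cases h : z.testBit i = true
  · have hle : 2 ^ i ≤ z := Nat.ge_two_pow_of_testBit h
    rw [xor_two_pow_of_true h, hm (z - 2 ^ i) (lt_of_le_of_lt (Nat.sub_le _ _) hz)]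
    have h3 : (z - 2 ^ i).testBit i = false := by
      rw [← xor_two_pow_of_true h, Nat.testBit_xor, Nat.testBit_two_pow, h]; simp
    rw [h3, h]
    simp [hle]
  · have h' : z.testBit i = false := by simpa using h
    rw [xor_two_pow_of_false h', h']
    by_cases hle : 2 ^ i ≤ z
    · have h3 : (z - 2 ^ i).testBit i = true := by
        have : z.testBit i = !((z - 2 ^ i).testBit i) := by
          conv_lhs => rw [show z = 2 ^ i + (z - 2 ^ i) by omega]
          rw [Nat.testBit_two_pow_add_eq]
        rw [h'] at this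
        simpa using this.symm
      rw [hm (z - 2 ^ i) (lt_of_le_of_lt (Nat.sub_le _ _) hz), h3, add_comm]
      simp
    · rw [add_comm]
      simp [hle]

/-- `Y` is the translate of `X` by `u` (on positions below `8192`). -/
def Tr (u X Y : ℕ) : Prop := ∀ z < 8192, Y.testBit z = X.testBit (z ^^^ u)

/-- list of pairs for the bits in the index list `I` -/
def bl (I : List ℕ) : List (ℕ × ℕ) := I.map (fun i => (M i, 2 ^ i))

/-- the part of `u` supported on the bits in `I` -/
def sel : List ℕ → ℕ → ℕ
  | [], _ => 0
  | i :: I, u => (if u.testBit i then 2 ^ i else 0) ^^^ sel I u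

theorem sel_cons (i : ℕ) (I : List ℕ) (u : ℕ) :
    sel (i :: I) u = (if u.testBit i then 2 ^ i else 0) ^^^ sel I u := rfl

theorem testBit_sel (I : List ℕ) (hI : I.Nodup) (u j : ℕ) :
    (sel I u).testBit j = (decide (j ∈ I) && u.testBit j) := by
  induction I with
  | nil => simp [sel]
  | cons i I ih =>
    rw [List.nodup_cons] at hI
    unfold sel
    rw [Nat.testBit_xor, ih hI.2]
    by_cases hij : j = i
    · subst hij
      have : decide (j ∈ I) = false := by simpa using hI.1
      rw [this]
      cases h : u.testBit j <;> simp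
    · have h1 : (if u.testBit i then 2 ^ i else 0 : ℕ).testBit j = false := by
        split
        · rw [Nat.testBit_two_pow]; simp; omega
        · simp
      rw [h1]
      simp [hij]

theorem sel_lt (I : List ℕ) (hI : ∀ i ∈ I, i < 13) (u : ℕ) : sel I u < 8192 := by
  induction I with
  | nil => simp [sel]
  | cons i I ih =>
    unfold sel
    apply xor_lt _ (ih (fun j hj => hI j (List.mem_cons_of_mem _ hj)))
    split
    · have := hI i (List.mem_cons_self ..)
      calc (2 : ℕ) ^ i < 2 ^ 13 := Nat.pow_lt_pow_right (by norm_num) this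
        _ = 8192 := by norm_num
    · norm_num

theorem tr_sh (I : List ℕ) (hI : ∀ i ∈ I, i < 13) (hM : ∀ i < 13, IsMask (M i) i) (u X : ℕ) :
    Tr (sel I u) X (sh (bl I) u X) := by
  induction I generalizing X with
  | nil => intro z _; simp [bl, sel, sh]
  | cons i I ih =>
    intro z hz
    have hi : i < 13 := hI i (List.mem_cons_self ..)
    have hI' : ∀ j ∈ I, j < 13 := fun j hj => hI j (List.mem_cons_of_mem _ hj)
    show (sh (bl I) u (cond (Nat.beq (Nat.land u (2 ^ i)) 0) X (bf (M i) (2 ^ i) X))).testBit z = _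
    rw [ih hI' _ z hz, land_two_pow_beq, sel_cons]
    have hlt : z ^^^ sel I u < 8192 := xor_lt hz (sel_lt I hI' u)
    cases h : u.testBit i
    · simp
    · simp only [Bool.not_true, cond_false, if_true]
      rw [testBit_bf hi (hM i hi) X _ hlt, Nat.xor_assoc, Nat.xor_comm (sel I u)]

theorem tr_comp {u v X Y Z : ℕ} (hu : u < 8192) (h1 : Tr v X Y) (h2 : Tr u Y Z) :
    Tr (u ^^^ v) X Z := by
  intro z hz
  rw [h2 z hz, h1 _ (xor_lt hz hu), Nat.xor_assoc]

/-- specification of `tree` -/
theorem tree_spec (I : List ℕ) (hI : ∀ i ∈ I, i < 13) (hM : ∀ i < 13, IsMask (M i) i)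
    (leaf : ℕ → Bool) (S : ℕ) (h : tree (bl I) leaf S = true) (v : ℕ)
    (hv : ∀ j, v.testBit j = true → j ∈ I) : ∃ S', Tr v S S' ∧ leaf S' = true := by
  induction I generalizing S v with
  | nil =>
    have : v = 0 := by
      apply Nat.eq_of_testBit_eq
      intro j
      rw [Nat.zero_testBit]
      by_contra hc
      have := hv j (by simpa using hc)
      simp at this
    subst this
    exact ⟨S, fun z _ => by simp, h⟩
  | cons i I ih =>
    have hi : i < 13 := hI i (List.mem_cons_self ..)
    have hI' : ∀ j ∈ I, j < 13 := fun j hj => hI j (List.mem_cons_of_mem _ hj)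
    have h' : (tree (bl I) leaf S && tree (bl I) leaf (bf (M i) (2 ^ i) S)) = true := h
    rw [Bool.and_eq_true] at h'
    by_cases hvi : v.testBit i = true
    · have hv' : ∀ j, (v ^^^ 2 ^ i).testBit j = true → j ∈ I := by
        intro j hj
        rw [Nat.testBit_xor, Nat.testBit_two_pow] at hj
        by_cases hij : i = j
        · subst hij; simp [hvi] at hj
        · simp [hij] at hj
          have := hv j hj
          rw [List.mem_cons] at this
          rcases this with rfl | this
          · exact absurd rfl hij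
          · exact this
      obtain ⟨S', hS', hl⟩ := ih hI' _ h'.2 _ hv'
      refine ⟨S', ?_, hl⟩
      have hlt : v ^^^ 2 ^ i < 8192 := by
        apply Nat.lt_pow_two_of_testBit (n := 13)
        intro j hj
        by_contra hc
        have := hI' j (hv' j (by simpa using hc))
        omega
      intro z hz
      rw [hS' z hz, testBit_bf hi (hM i hi) _ _ (xor_lt hz hlt), Nat.xor_assoc, Nat.xor_assoc,
        Nat.xor_self, Nat.xor_zero]
    · apply ih hI' _ h'.1
      intro j hj
      have := hv j hj
      rw [List.mem_cons] at this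
      rcases this with rfl | this
      · exact absurd hj hvi
      · exact this

/-- specification of `treeA` -/
theorem treeA_spec (I : List ℕ) (hI : ∀ i ∈ I, i < 13) (hM : ∀ i < 13, IsMask (M i) i)
    (f : ℕ → Bool) (al S : ℕ) (h : treeA (bl I) f al S = true) (v : ℕ)
    (hv : ∀ j, v.testBit j = true → j ∈ I) (hal : al.testBit v = true) :
    ∃ S', Tr v S S' ∧ f S' = true := by
  induction I generalizing S v al with
  | nil =>
    have : v = 0 := by
      apply Nat.eq_of_testBit_eq
      intro j
      rw [Nat.zero_testBit]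
      by_contra hc
      have := hv j (by simpa using hc)
      simp at this
    subst this
    exact ⟨S, fun z _ => by simp, h⟩
  | cons i I ih =>
    have hi : i < 13 := hI i (List.mem_cons_self ..)
    have hI' : ∀ j ∈ I, j < 13 := fun j hj => hI j (List.mem_cons_of_mem _ hj)
    have h' : ((Nat.beq (Nat.land al (M i)) 0 || treeA (bl I) f (Nat.land al (M i)) S) &&
      (Nat.beq (Nat.land (Nat.shiftRight al (2 ^ i)) (M i)) 0 ||
        treeA (bl I) f (Nat.land (Nat.shiftRight al (2 ^ i)) (M i)) (bf (M i) (2 ^ i) S))) = true := h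
    rw [Bool.and_eq_true, Bool.or_eq_true, Bool.or_eq_true, beq0_iff, beq0_iff] at h'
    have hvlt : v < 8192 := by
      apply Nat.lt_pow_two_of_testBit (n := 13)
      intro j hj
      by_contra hc
      have := hI j (hv j (by simpa using hc))
      omega
    by_cases hvi : v.testBit i = true
    · have hv' : ∀ j, (v ^^^ 2 ^ i).testBit j = true → j ∈ I := by
        intro j hj
        rw [Nat.testBit_xor, Nat.testBit_two_pow] at hj
        by_cases hij : i = j
        · subst hij; simp [hvi] at hj
        · simp [hij] at hj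
          have := hv j hj
          rw [List.mem_cons] at this
          rcases this with rfl | this
          · exact absurd rfl hij
          · exact this
      have hlt : v ^^^ 2 ^ i < 8192 := by
        apply Nat.lt_pow_two_of_testBit (n := 13)
        intro j hj
        by_contra hc
        have := hI' j (hv' j (by simpa using hc))
        omega
      have hb : (Nat.land (Nat.shiftRight al (2 ^ i)) (M i)).testBit (v ^^^ 2 ^ i) = true := by
        rw [tland, tshr, hM i hi _ hlt, Nat.testBit_xor, Nat.testBit_two_pow, hvi,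
          xor_two_pow_of_true hvi]
        have hle : 2 ^ i ≤ v := Nat.ge_two_pow_of_testBit hvi
        rw [show 2 ^ i + (v - 2 ^ i) = v by omega, hal]
        simp
      rcases h'.2 with h0 | h2
      · rw [h0] at hb; simp at hb
      obtain ⟨S', hS', hl⟩ := ih hI' _ _ h2 _ hv' hb
      refine ⟨S', ?_, hl⟩
      intro z hz
      rw [hS' z hz, testBit_bf hi (hM i hi) _ _ (xor_lt hz hlt), Nat.xor_assoc, Nat.xor_assoc,
        Nat.xor_self, Nat.xor_zero]
    · have hb : (Nat.land al (M i)).testBit v = true := by
        rw [tland, hM i hi _ hvlt, hal]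
        simpa using hvi
      rcases h'.1 with h0 | h1
      · rw [h0] at hb; simp at hb
      · apply ih hI' _ _ h1 _ _ hb
        intro j hj
        have := hv j hj
        rw [List.mem_cons] at this
        rcases this with rfl | this
        · exact absurd hj hvi
        · exact this

end Pool.Agent.Lib.MP_17ab9e_co
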