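import Pool.Agent.Lib.MP_17ab9e_co.Sound

/-! Correctness of the counting tests. -/

namespace Pool.Agent.Lib.MP_17ab9e_co

/-- `g M = true` implies that at most `k` binary digits of `M` are set. -/
def FewSpec (k : ℕ) (g : ℕ → Bool) : Prop :=
  ∀ M, g M = true → ∀ S : Finset ℕ, (∀ z ∈ S, M.testBit z = true) → S.card ≤ k

theorem rm_spec (M : ℕ) : ∃ p, ∀ z, M.testBit z = true → z = p ∨ (rm M).testBit z = true := by
  induction M using Nat.strong_induction_on with
  | _ M ih =>
    rcases Nat.even_or_odd' M with ⟨n, rfl | rfl⟩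
    · by_cases hn : n = 0
      · subst hn
        exact ⟨0, by simp⟩
      · obtain ⟨p, hp⟩ := ih n (by omega)
        refine ⟨p + 1, ?_⟩
        intro z hz
        cases z with
        | zero =>
          rw [Nat.testBit_zero] at hz
          simp at hz
        | succ z =>
          rw [Nat.testBit_succ, show 2 * n / 2 = n by omega] at hz
          rcases hp z hz with h | h
          · left; omega
          · right
            unfold rm at h ⊢
            rw [tland] at h ⊢
            rw [Nat.testBit_succ, Nat.testBit_succ, show 2 * n / 2 = n by omega,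
              show Nat.sub (2 * n) 1 / 2 = n - 1 by
                show (2 * n - 1) / 2 = n - 1
                omega]
            exact h
    · refine ⟨0, ?_⟩
      intro z hz
      cases z with
      | zero => left; rfl
      | succ z =>
        right
        unfold rm
        rw [tland]
        rw [Nat.testBit_succ, show (2 * n + 1) / 2 = n by omega] at hz
        rw [Nat.testBit_succ, Nat.testBit_succ, show (2 * n + 1) / 2 = n by omega,
          show Nat.sub (2 * n + 1) 1 / 2 = n by
            show (2 * n + 1 - 1) / 2 = n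
            omega, hz]
        rfl

theorem few0_spec : FewSpec 0 few0 := by
  intro M h S hS
  have : M = 0 := (beq0_iff M).1 h
  subst this
  rw [Nat.le_zero, Finset.card_eq_zero, Finset.eq_empty_iff_forall_notMem]
  intro z hz
  have := hS z hz
  simp at this

theorem few_step {k : ℕ} {g : ℕ → Bool} (hg : FewSpec k g) :
    FewSpec (k + 1) (fun M => or (Nat.beq M 0) (g (rm M))) := by
  intro M h S hS
  simp only [Bool.or_eq_true, beq0_iff] at h
  rcases h with h | h
  · subst h
    have : S = ∅ := by
      rw [Finset.eq_empty_iff_forall_notMem]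
      intro z hz
      have := hS z hz
      simp at this
    rw [this]; simp
  · obtain ⟨p, hp⟩ := rm_spec M
    have h1 : (S.erase p).card ≤ k := by
      apply hg _ h
      intro z hz
      rw [Finset.mem_erase] at hz
      rcases hp z (hS z hz.2) with h2 | h2
      · exact absurd h2 hz.1
      · exact h2
    have h2 : S.card - 1 ≤ (S.erase p).card := Finset.pred_card_le_card_erase
    omega

theorem few6_spec : FewSpec 6 few6 :=
  few_step (few_step (few_step (few_step (few_step (few_step few0_spec)))))

theorem few7_spec : FewSpec 7 few7 := few_step few6_spec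

theorem testBit_tog (M p z : ℕ) (h : z ≠ p) : (tog M p).testBit z = M.testBit z := by
  unfold tog
  rw [txor, tshl]
  have : (decide (p ≤ z) && Nat.testBit 1 (z - p)) = false := by
    by_cases hle : p ≤ z
    · have : Nat.testBit 1 (z - p) = false := by
        apply Nat.testBit_lt_two_pow
        calc 1 < 2 ^ 1 := by norm_num
          _ ≤ 2 ^ (z - p) := Nat.pow_le_pow_right (by norm_num) (by omega)
      rw [this]; simp
    · simp [hle]
  rw [this]; simp

theorem bits13_eq : bits13 = bl [0, 1, 2, 3, 4, 5, 6, 7, 8, 9, 10, 11, 12] := rfl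
theorem bits7_eq : bits7 = bl [0, 1, 2, 3, 4, 5, 6] := rfl

theorem sel13 {u : ℕ} (hu : u < 8192) : sel [0, 1, 2, 3, 4, 5, 6, 7, 8, 9, 10, 11, 12] u = u := by
  apply Nat.eq_of_testBit_eq
  intro j
  rw [testBit_sel _ (by decide)]
  by_cases hj : j < 13
  · have : j ∈ [0, 1, 2, 3, 4, 5, 6, 7, 8, 9, 10, 11, 12] := by
      simp only [List.mem_cons, List.not_mem_nil, or_false]; omega
    simp [this]
  · have h1 : u.testBit j = false := by
      apply Nat.testBit_lt_two_pow
      calc u < 2 ^ 13 := hu
        _ ≤ 2 ^ j := Nat.pow_le_pow_right (by norm_num) (by omega)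
    rw [h1]; simp

theorem sel7 {u : ℕ} (hu : u < 128) : sel [0, 1, 2, 3, 4, 5, 6] u = u := by
  apply Nat.eq_of_testBit_eq
  intro j
  rw [testBit_sel _ (by decide)]
  by_cases hj : j < 7
  · have : j ∈ [0, 1, 2, 3, 4, 5, 6] := by
      simp only [List.mem_cons, List.not_mem_nil, or_false]; omega
    simp [this]
  · have h1 : u.testBit j = false := by
      apply Nat.testBit_lt_two_pow
      calc u < 2 ^ 7 := hu
        _ ≤ 2 ^ j := Nat.pow_le_pow_right (by norm_num) (by omega)
    rw [h1]; simp

theorem tr_sh13 (hM : ∀ i < 13, IsMask (M i) i) {u : ℕ} (hu : u < 8192) (X : ℕ) :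
    Tr u X (sh bits13 u X) := by
  have h := tr_sh [0, 1, 2, 3, 4, 5, 6, 7, 8, 9, 10, 11, 12] (by decide) hM u X
  rw [sel13 hu] at h
  rw [bits13_eq]
  exact h

theorem tr_sh7 (hM : ∀ i < 13, IsMask (M i) i) {u : ℕ} (hu : u < 128) (X : ℕ) :
    Tr u X (sh bits7 u X) := by
  have h := tr_sh [0, 1, 2, 3, 4, 5, 6] (by decide) hM u X
  rw [sel7 hu] at h
  rw [bits7_eq]
  exact h

/-- A coset of an eight element group of numbers below `8192`, with respect to `xor`. -/
structure Cell (R : Finset ℕ) : Prop where
  lt : ∀ z ∈ R, z < 8192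
  cl : ∀ p ∈ R, ∀ q ∈ R, ∀ z ∈ R, z ^^^ (p ^^^ q) ∈ R
  card : R.card = 8

theorem dirTest_spec (hM : ∀ i < 13, IsMask (M i) i) {R : Finset ℕ} (hR : Cell R) {X p q : ℕ}
    (hX : ∀ z ∈ R, X.testBit z = true) (hp : p ∈ R) (hq : q ∈ R) :
    dirTest X (Nat.xor p q) = false := by
  rw [Bool.eq_false_iff]
  intro h
  have hu : p ^^^ q < 8192 := xor_lt (hR.lt p hp) (hR.lt q hq)
  have h1 := few7_spec _ h R (by
    intro z hz
    rw [tland, hX z hz]
    have := tr_sh13 hM hu X z (hR.lt z hz)
    change (sh bits13 (Nat.xor p q) X).testBit z = _ at this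
    rw [this, hX _ (hR.cl p hp q hq z hz)]
    rfl)
  rw [hR.card] at h1
  omega

theorem pbr_spec (hM : ∀ i < 13, IsMask (M i) i) {R : Finset ℕ} (hR : Cell R) {X p : ℕ}
    (hX : ∀ z ∈ R, X.testBit z = true) (hp : p ∈ R) (k Q : ℕ)
    (hQ : ∀ z ∈ R.erase p, Q.testBit z = true) : pbr k p X Q = false := by
  induction k generalizing Q with
  | zero => rfl
  | succ k ih =>
    rw [Bool.eq_false_iff]
    intro h
    have h' : (few6 Q || (dirTest X (Nat.xor p (ctz cl13 0 Q)) &&
      pbr k p X (tog Q (ctz cl13 0 Q)))) = true := h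
    rw [Bool.or_eq_true, Bool.and_eq_true] at h'
    rcases h' with h1 | ⟨h1, h2⟩
    · have := few6_spec _ h1 (R.erase p) hQ
      rw [Finset.card_erase_of_mem hp, hR.card] at this
      omega
    · by_cases hq : ctz cl13 0 Q ∈ R
      · rw [dirTest_spec hM hR hX hp hq] at h1
        exact absurd h1 (by simp)
      · rw [ih (tog Q (ctz cl13 0 Q))] at h2
        · exact absurd h2 (by simp)
        · intro z hz
          rw [testBit_tog]
          · exact hQ z hz
          · rintro rfl
            exact hq (Finset.mem_of_mem_erase hz)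

theorem deeper_spec (hM : ∀ i < 13, IsMask (M i) i) {R : Finset ℕ} (hR : Cell R) {X : ℕ}
    (hX : ∀ z ∈ R, X.testBit z = true) (k Q : ℕ)
    (hQ : ∀ z ∈ R, Q.testBit z = true) : deeper k X Q = false := by
  induction k generalizing Q with
  | zero => rfl
  | succ k ih =>
    rw [Bool.eq_false_iff]
    intro h
    have h' : (few7 Q || (pbr 20 (ctz cl13 0 Q) X (tog Q (ctz cl13 0 Q)) &&
      deeper k X (tog Q (ctz cl13 0 Q)))) = true := h
    rw [Bool.or_eq_true, Bool.and_eq_true] at h'
    rcases h' with h1 | ⟨h1, h2⟩
    · have := few7_spec _ h1 R hQ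
      rw [hR.card] at this
      omega
    · by_cases hq : ctz cl13 0 Q ∈ R
      · rw [pbr_spec hM hR hX hq] at h1
        · exact absurd h1 (by simp)
        · intro z hz
          rw [Finset.mem_erase] at hz
          rw [testBit_tog _ _ _ hz.1]
          exact hQ z hz.2
      · rw [ih (tog Q (ctz cl13 0 Q))] at h2
        · exact absurd h2 (by simp)
        · intro z hz
          rw [testBit_tog]
          · exact hQ z hz
          · rintro rfl
            exact hq hz

/-- In a set stable under translation by `u`, where bit `p` of `u` is one, exactly half of the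
elements have bit `p` equal to zero. -/
theorem halve (S : Finset ℕ) (u p : ℕ) (hu : u.testBit p = true)
    (inv : ∀ z ∈ S, z ^^^ u ∈ S) :
    2 * (S.filter (fun z => z.testBit p = false)).card = S.card := by
  have h1 : (S.filter (fun z => z.testBit p = false)).card
      = (S.filter (fun z => ¬ z.testBit p = false)).card := by
    apply Finset.card_bij (fun z _ => z ^^^ u)
    · intro z hz
      rw [Finset.mem_filter] at hz ⊢
      refine ⟨inv z hz.1, ?_⟩
      rw [Nat.testBit_xor, hz.2, hu]; simp
    · intro a _ b _ hab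
      exact Nat.xor_left_injective hab
    · intro b hb
      rw [Finset.mem_filter] at hb
      refine ⟨b ^^^ u, ?_, ?_⟩
      · rw [Finset.mem_filter]
        refine ⟨inv b hb.1, ?_⟩
        have h3 : b.testBit p = true := by simpa using hb.2
        rw [Nat.testBit_xor, h3, hu]; rfl
      · rw [Nat.xor_assoc, Nat.xor_self, Nat.xor_zero]
  have h2 := Finset.card_filter_add_card_filter_not (s := S) (fun z => z.testBit p = false)
  omega

end Pool.Agent.Lib.MP_17ab9e_co
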