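import Pool.Agent.Lib.MP_17ab9e_co.Sound2
import Pool.Agent.Lib.MP_17ab9e_co.CheckPh

/-! The combinatorial object excluded by the search, and the first case. -/

namespace Pool.Agent.Lib.MP_17ab9e_co

/-- `W` is a `64` element group of numbers below `8192` (with `xor`) and `A` is a coset of `W`
contained in the graph `GT`. -/
structure Bad (W A : Finset ℕ) : Prop where
  Wlt : ∀ w ∈ W, w < 8192
  Alt : ∀ z ∈ A, z < 8192
  Wxor : ∀ a ∈ W, ∀ b ∈ W, a ^^^ b ∈ W
  Wcard : W.card = 64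
  AW : ∀ z ∈ A, ∀ w ∈ W, z ^^^ w ∈ A
  AA : ∀ z ∈ A, ∀ z' ∈ A, z ^^^ z' ∈ W
  Ane : A.Nonempty
  G : ∀ z ∈ A, GT.testBit z = true
  one : 1 ∉ W

theorem hM : ∀ i < 13, IsMask (M i) i := by
  intro i hi
  have h := tMask
  rw [List.all_eq_true] at h
  have h2 := h i (List.mem_range.2 hi)
  exact isMask_of _ _ (Nat.eq_of_beq_eq_true h2)

theorem allBelow_spec {n : ℕ} {f : ℕ → Bool} (h : allBelow n f = true) : ∀ z < n, f z = true := by
  induction n with
  | zero => intro z hz; omega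
  | succ n ih =>
    have h' : (f n && allBelow n f) = true := h
    rw [Bool.and_eq_true] at h'
    intro z hz
    rcases Nat.lt_succ_iff_lt_or_eq.1 hz with h1 | rfl
    · exact ih h'.2 z h1
    · exact h'.1

theorem Bad.zero {W A : Finset ℕ} (h : Bad W A) : 0 ∈ W := by
  obtain ⟨z, hz⟩ := h.Ane
  have := h.AA z hz z hz
  rwa [Nat.xor_self] at this

theorem Bad.Acard {W A : Finset ℕ} (h : Bad W A) : A.card = 64 := by
  obtain ⟨z, hz⟩ := h.Ane
  rw [← h.Wcard]
  apply Finset.card_bij (fun a _ => z ^^^ a)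
  · intro a ha; exact h.AA z hz a ha
  · intro a _ b _ hab; exact Nat.xor_right_injective hab
  · intro b hb
    refine ⟨z ^^^ b, h.AW z hz b hb, ?_⟩
    rw [← Nat.xor_assoc, Nat.xor_self, Nat.zero_xor]

/-! ### the linear symmetry -/

theorem lmap_xor (L : List (ℕ × ℕ)) (hL : ∀ e ∈ L, ∃ i, e.1 = 2 ^ i) (a b : ℕ) :
    lmap L (a ^^^ b) = lmap L a ^^^ lmap L b := by
  induction L with
  | nil => simp [lmap]
  | cons e L ih =>
    obtain ⟨i, hi⟩ := hL e (List.mem_cons_self ..)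
    obtain ⟨s, c⟩ := e
    simp only at hi
    subst hi
    have ih' := ih (fun e he => hL e (List.mem_cons_of_mem _ he))
    show Nat.xor (cond (Nat.beq (Nat.land (a ^^^ b) (2 ^ i)) 0) 0 c) (lmap L (a ^^^ b)) =
      (Nat.xor (cond (Nat.beq (Nat.land a (2 ^ i)) 0) 0 c) (lmap L a)) ^^^
      (Nat.xor (cond (Nat.beq (Nat.land b (2 ^ i)) 0) 0 c) (lmap L b))
    rw [land_two_pow_beq, land_two_pow_beq, land_two_pow_beq, ih', Nat.testBit_xor]
    apply Nat.eq_of_testBit_eq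
    intro j
    simp only [txor, Nat.testBit_xor]
    cases a.testBit i <;> cases b.testBit i <;> simp <;>
      cases c.testBit j <;> cases (lmap L a).testBit j <;> cases (lmap L b).testBit j <;> rfl

theorem phL_ok : ∀ e ∈ phL, ∃ i, e.1 = 2 ^ i := by
  intro e he
  simp only [phL, List.mem_cons, List.not_mem_nil, or_false] at he
  rcases he with rfl | rfl | rfl | rfl | rfl | rfl | rfl | rfl | rfl | rfl | rfl | rfl | rfl
  · exact ⟨0, rfl⟩
  · exact ⟨1, rfl⟩
  · exact ⟨2, rfl⟩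
  · exact ⟨3, rfl⟩
  · exact ⟨4, rfl⟩
  · exact ⟨5, rfl⟩
  · exact ⟨6, rfl⟩
  · exact ⟨7, rfl⟩
  · exact ⟨8, rfl⟩
  · exact ⟨9, rfl⟩
  · exact ⟨10, rfl⟩
  · exact ⟨11, rfl⟩
  · exact ⟨12, rfl⟩

theorem ph_xor (a b : ℕ) : ph (a ^^^ b) = ph a ^^^ ph b := lmap_xor phL phL_ok a b

theorem ph_spec {z : ℕ} (hz : z < 8192) :
    (GT.testBit z = true → GT.testBit (ph z) = true) ∧ ph z < 8192 ∧ (ph z = 0 → z = 0) ∧
      (ph z < 128 → z < 128) := by
  have h := allBelow_spec tPh z hz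
  unfold phOK at h
  simp only [Bool.and_eq_true, Bool.or_eq_true, Bool.not_eq_true', tb_eq, Nat.ble_eq,
    beq0_iff] at h
  obtain ⟨h1, h2, h3, h4⟩ := h
  refine ⟨?_, by omega, ?_, ?_⟩
  · intro h5
    rcases h1 with h1 | h1
    · rw [h1] at h5; exact absurd h5 (by simp)
    · exact h1
  · intro h5
    rcases h3 with h3 | h3
    · exact h3
    · rw [h5] at h3; exact absurd h3 (by decide)
  · intro h5
    rcases h4 with h4 | h4 <;> omega

theorem ph_inj {a b : ℕ} (ha : a < 8192) (hb : b < 8192) (h : ph a = ph b) : a = b := by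
  have h1 : ph (a ^^^ b) = 0 := by rw [ph_xor, h, Nat.xor_self]
  have h2 := (ph_spec (xor_lt ha hb)).2.2.1 h1
  exact Nat.xor_eq_zero_iff.1 h2

theorem ph_one : ph 1 = 1 := by decide +kernel

theorem Bad.image {W A : Finset ℕ} (h : Bad W A) : Bad (W.image ph) (A.image ph) where
  Wlt := by
    intro w hw
    rw [Finset.mem_image] at hw
    obtain ⟨w', hw', rfl⟩ := hw
    exact (ph_spec (h.Wlt w' hw')).2.1
  Alt := by
    intro w hw
    rw [Finset.mem_image] at hw
    obtain ⟨w', hw', rfl⟩ := hw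
    exact (ph_spec (h.Alt w' hw')).2.1
  Wxor := by
    intro a ha b hb
    rw [Finset.mem_image] at ha hb ⊢
    obtain ⟨a', ha', rfl⟩ := ha
    obtain ⟨b', hb', rfl⟩ := hb
    exact ⟨a' ^^^ b', h.Wxor a' ha' b' hb', ph_xor _ _⟩
  Wcard := by
    rw [Finset.card_image_of_injOn, h.Wcard]
    intro a ha b hb hab
    exact ph_inj (h.Wlt a ha) (h.Wlt b hb) hab
  AW := by
    intro a ha b hb
    rw [Finset.mem_image] at ha hb ⊢
    obtain ⟨a', ha', rfl⟩ := ha
    obtain ⟨b', hb', rfl⟩ := hb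
    exact ⟨a' ^^^ b', h.AW a' ha' b' hb', ph_xor _ _⟩
  AA := by
    intro a ha b hb
    rw [Finset.mem_image] at ha hb ⊢
    obtain ⟨a', ha', rfl⟩ := ha
    obtain ⟨b', hb', rfl⟩ := hb
    exact ⟨a' ^^^ b', h.AA a' ha' b' hb', ph_xor _ _⟩
  Ane := h.Ane.image _
  G := by
    intro w hw
    rw [Finset.mem_image] at hw
    obtain ⟨w', hw', rfl⟩ := hw
    exact (ph_spec (h.Alt w' hw')).1 (h.G w' hw')
  one := by
    intro h1
    rw [Finset.mem_image] at h1
    obtain ⟨w', hw', h2⟩ := h1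
    have : w' = 1 := ph_inj (h.Wlt w' hw') (by norm_num) (by rw [h2, ph_one])
    exact h.one (this ▸ hw')

theorem reach_spec {k t z : ℕ} (h : reach k t z = true) : ∃ n, ph^[n] z = t := by
  induction k generalizing z with
  | zero => exact absurd h (by simp [reach])
  | succ k ih =>
    have h' : (Nat.beq z t || reach k t (ph z)) = true := h
    rw [Bool.or_eq_true] at h'
    rcases h' with h1 | h1
    · exact ⟨0, Nat.eq_of_beq_eq_true h1⟩
    · obtain ⟨n, hn⟩ := ih h1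
      exact ⟨n + 1, by rw [Function.iterate_succ_apply]; exact hn⟩

theorem orb_spec {y : ℕ} (hy : y < 64) (hy0 : y ≠ 0) :
    (∃ n, ph^[n] (2 * y) = 2) ∧ (∃ n, ph^[n] (2 * y + 1) = 3) := by
  have h := allBelow_spec tOrb y hy
  unfold orbOK at h
  simp only [Bool.and_eq_true, Bool.or_eq_true, beq0_iff] at h
  rcases h with h | ⟨h1, h2, -⟩
  · exact absurd h hy0
  · exact ⟨reach_spec h1, reach_spec h2⟩

/-- Iterating the symmetry. -/
theorem Bad.iter {W A : Finset ℕ} (h : Bad W A) (n : ℕ) :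
    ∃ W' A', Bad W' A' ∧ (∀ w ∈ W, ph^[n] w ∈ W') ∧ (∀ z ∈ A, ph^[n] z ∈ A') ∧
      ((∀ w ∈ W, w < 128 → w = 0) → (∀ w ∈ W', w < 128 → w = 0)) := by
  induction n with
  | zero => exact ⟨W, A, h, fun w hw => hw, fun z hz => hz, fun h => h⟩
  | succ n ih =>
    obtain ⟨W', A', h', hW, hA, h0⟩ := ih
    refine ⟨W'.image ph, A'.image ph, h'.image, ?_, ?_, ?_⟩
    · intro w hw
      rw [Function.iterate_succ_apply']
      exact Finset.mem_image_of_mem _ (hW w hw)
    · intro w hw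
      rw [Function.iterate_succ_apply']
      exact Finset.mem_image_of_mem _ (hA w hw)
    · intro hz w hw hlt
      rw [Finset.mem_image] at hw
      obtain ⟨w', hw', rfl⟩ := hw
      have h1 := (ph_spec (h'.Wlt w' hw')).2.2.2 hlt
      have h2 := h0 hz w' hw' h1
      rw [h2]
      decide +kernel

end Pool.Agent.Lib.MP_17ab9e_co
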