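import Pool.Agent.Lib.MP_17ab9e_co.Sound3
import Pool.Agent.Lib.MP_17ab9e_co.CheckX0
import Pool.Agent.Lib.MP_17ab9e_co.CheckX1

/-! The case where the group meets the subspace `x = 0`. -/

namespace Pool.Agent.Lib.MP_17ab9e_co

/-- indices below `p`, except `1`, in decreasing order -/
def ia (p : ℕ) : List ℕ := ((List.range p).reverse).filter (fun i => !(i == 1))

/-- indices below `q`, except `1` and `p`, in decreasing order -/
def ib (p q : ℕ) : List ℕ := ((List.range q).reverse).filter (fun i => !(i == 1) && !(i == p))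

theorem mem_ia {p i : ℕ} : i ∈ ia p ↔ i < p ∧ i ≠ 1 := by
  unfold ia
  rw [List.mem_filter, List.mem_reverse, List.mem_range]
  simp

theorem mem_ib {p q i : ℕ} : i ∈ ib p q ↔ i < q ∧ i ≠ 1 ∧ i ≠ p := by
  unfold ib
  rw [List.mem_filter, List.mem_reverse, List.mem_range]
  simp

theorem chk_X0 {pa pb : ℕ} (h1 : 2 ≤ pa) (h2 : pa < pb) (h3 : pb < 10) :
    stepA (M pa) (2 ^ pa) (M pb) (2 ^ pb) (bl (ia pa)) (bl (ib pa pb)) X0 = true := by
  have h0 : 3 ≤ pb := by omega
  interval_cases pb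
  · interval_cases pa
    · exact tB_2_3_X0
  · interval_cases pa
    · exact tB_2_4_X0
    · exact tB_3_4_X0
  · interval_cases pa
    · exact tB_2_5_X0
    · exact tB_3_5_X0
    · exact tB_4_5_X0
  · interval_cases pa
    · exact tB_2_6_X0
    · exact tB_3_6_X0
    · exact tB_4_6_X0
    · exact tB_5_6_X0
  · interval_cases pa
    · exact tB_2_7_X0
    · exact tB_3_7_X0
    · exact tB_4_7_X0
    · exact tB_5_7_X0
    · exact tB_6_7_X0
  · interval_cases pa
    · exact tB_2_8_X0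
    · exact tB_3_8_X0
    · exact tB_4_8_X0
    · exact tB_5_8_X0
    · exact tB_6_8_X0
    · exact tB_7_8_X0
  · interval_cases pa
    · exact tB_2_9_X0
    · exact tB_3_9_X0
    · exact tB_4_9_X0
    · exact tB_5_9_X0
    · exact tB_6_9_X0
    · exact tB_7_9_X0
    · exact tB_8_9_X0

theorem chk_X1 {pa pb : ℕ} (h1 : 2 ≤ pa) (h2 : pa < pb) (h3 : pb < 10) :
    stepA (M pa) (2 ^ pa) (M pb) (2 ^ pb) (bl (ia pa)) (bl (ib pa pb)) X1 = true := by
  have h0 : 3 ≤ pb := by omega
  interval_cases pb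
  · interval_cases pa
    · exact tB_2_3_X1
  · interval_cases pa
    · exact tB_2_4_X1
    · exact tB_3_4_X1
  · interval_cases pa
    · exact tB_2_5_X1
    · exact tB_3_5_X1
    · exact tB_4_5_X1
  · interval_cases pa
    · exact tB_2_6_X1
    · exact tB_3_6_X1
    · exact tB_4_6_X1
    · exact tB_5_6_X1
  · interval_cases pa
    · exact tB_2_7_X1
    · exact tB_3_7_X1
    · exact tB_4_7_X1
    · exact tB_5_7_X1
    · exact tB_6_7_X1
  · interval_cases pa
    · exact tB_2_8_X1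
    · exact tB_3_8_X1
    · exact tB_4_8_X1
    · exact tB_5_8_X1
    · exact tB_6_8_X1
    · exact tB_7_8_X1
  · interval_cases pa
    · exact tB_2_9_X1
    · exact tB_3_9_X1
    · exact tB_4_9_X1
    · exact tB_5_9_X1
    · exact tB_6_9_X1
    · exact tB_7_9_X1
    · exact tB_8_9_X1


theorem stepA_false {A1 : Finset ℕ} {X a b pa pb : ℕ} {Ia Ib : List ℕ}
    (hlt : ∀ z ∈ A1, z < 8192) (hcard : A1.card = 32) (hX : ∀ z ∈ A1, X.testBit z = true)
    (hcl : ∀ p ∈ A1, ∀ q ∈ A1, ∀ z ∈ A1, z ^^^ (p ^^^ q) ∈ A1)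
    (ha : ∀ z ∈ A1, z ^^^ a ∈ A1) (hb : ∀ z ∈ A1, z ^^^ b ∈ A1)
    (ha1 : a.testBit pa = true) (hb1 : b.testBit pb = true) (hb2 : b.testBit pa = false)
    (hpa : pa < 13) (hpb : pb < 13) (hIa : ∀ i ∈ Ia, i < 13) (hIb : ∀ i ∈ Ib, i < 13)
    (hva : ∀ j, (a ^^^ 2 ^ pa).testBit j = true → j ∈ Ia)
    (hvb : ∀ j, (b ^^^ 2 ^ pb).testBit j = true → j ∈ Ib)
    (halt : a < 8192) (hblt : b < 8192) :
    stepA (M pa) (2 ^ pa) (M pb) (2 ^ pb) (bl Ia) (bl Ib) X = false := by
  rw [Bool.eq_false_iff]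
  intro h
  have hp2 : ∀ p < 13, (2 : ℕ) ^ p < 8192 := by
    intro p hp
    calc (2 : ℕ) ^ p < 2 ^ 13 := Nat.pow_lt_pow_right (by norm_num) hp
      _ = 8192 := by norm_num
  obtain ⟨S', hS', hl⟩ := tree_spec Ia hIa hM _ _ h _ hva
  have hz1 : ∀ z ∈ A1, S'.testBit z = true := by
    intro z hz
    rw [hS' z (hlt z hz), testBit_bf hpa (hM pa hpa) _ _
      (xor_lt (hlt z hz) (xor_lt halt (hp2 pa hpa))), Nat.xor_assoc, Nat.xor_assoc,
      Nat.xor_self, Nat.xor_zero]
    exact hX _ (ha z hz)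
  set X2 := Nat.land (Nat.land X S') (M pa) with hX2
  set A2 := A1.filter (fun z => z.testBit pa = false) with hA2
  have hA2m : ∀ z, z ∈ A2 ↔ z ∈ A1 ∧ z.testBit pa = false := by
    intro z; rw [hA2, Finset.mem_filter]
  have hX2t : ∀ z ∈ A2, X2.testBit z = true := by
    intro z hz
    rw [hA2m] at hz
    rw [hX2, tland, tland, hX z hz.1, hz1 z hz.1, hM pa hpa z (hlt z hz.1), hz.2]
    rfl
  have hc2 : A2.card = 16 := by
    have := halve A1 a pa ha1 ha
    rw [← hA2, hcard] at this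
    omega
  have hl' : stepB (M pb) (2 ^ pb) (bl Ib) X2 = true := hl
  obtain ⟨S'', hS'', hl2⟩ := tree_spec Ib hIb hM _ _ hl' _ hvb
  have hb2' : ∀ z ∈ A2, z ^^^ b ∈ A2 := by
    intro z hz
    rw [hA2m] at hz ⊢
    refine ⟨hb z hz.1, ?_⟩
    rw [Nat.testBit_xor, hz.2, hb2]; rfl
  have hz2 : ∀ z ∈ A2, S''.testBit z = true := by
    intro z hz
    have hz' := (hA2m z).1 hz
    rw [hS'' z (hlt z hz'.1), testBit_bf hpb (hM pb hpb) _ _
      (xor_lt (hlt z hz'.1) (xor_lt hblt (hp2 pb hpb))), Nat.xor_assoc, Nat.xor_assoc,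
      Nat.xor_self, Nat.xor_zero]
    exact hX2t _ (hb2' z hz)
  set A3 := A2.filter (fun z => z.testBit pb = false) with hA3
  have hA3m : ∀ z, z ∈ A3 ↔ z ∈ A2 ∧ z.testBit pb = false := by
    intro z; rw [hA3, Finset.mem_filter]
  have hc3 : A3.card = 8 := by
    have := halve A2 b pb hb1 hb2'
    rw [← hA3, hc2] at this
    omega
  have hcell : Cell A3 := by
    refine ⟨?_, ?_, hc3⟩
    · intro z hz
      exact hlt z ((hA2m z).1 ((hA3m z).1 hz).1).1
    · intro p hp q hq z hz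
      rw [hA3m, hA2m] at hp hq hz ⊢
      refine ⟨⟨hcl p hp.1.1 q hq.1.1 z hz.1.1, ?_⟩, ?_⟩
      · rw [Nat.testBit_xor, Nat.testBit_xor, hp.1.2, hq.1.2, hz.1.2]; rfl
      · rw [Nat.testBit_xor, Nat.testBit_xor, hp.2, hq.2, hz.2]; rfl
  have hl3 : deeper 20 (Nat.land (Nat.land X2 S'') (M pb)) (Nat.land (Nat.land X2 S'') (M pb))
      = true := hl2
  have hbit : ∀ z ∈ A3, (Nat.land (Nat.land X2 S'') (M pb)).testBit z = true := by
    intro z hz
    rw [hA3m] at hz
    rw [tland, tland, hX2t z hz.1, hz2 z hz.1, hM pb hpb z (hlt z ((hA2m z).1 hz.1).1), hz.2]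
    rfl
  rw [deeper_spec hM hcell hbit 20 _ hbit] at hl3
  exact absurd hl3 (by simp)

theorem xor_div_1024 {a b : ℕ} (h : a / 1024 = b / 1024) : a ^^^ b < 1024 := by
  have h1 : (a ^^^ b) / 2 ^ 10 = a / 2 ^ 10 ^^^ b / 2 ^ 10 := Nat.xor_div_two_pow
  norm_num at h1
  rw [h, Nat.xor_self] at h1
  omega

/-- Existence of two independent small elements in echelon form. -/
theorem exists_ab {W A : Finset ℕ} (h : Bad W A) {d : ℕ} (hd : d ∈ W) (hd1 : d.testBit 1 = true)
    (hd2 : d < 1024) :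
    ∃ a ∈ W, ∃ b ∈ W, ∃ pa pb, 2 ≤ pa ∧ pa < pb ∧ pb < 10 ∧ a.testBit 1 = false ∧
      b.testBit 1 = false ∧ a.testBit pa = true ∧ b.testBit pb = true ∧ b.testBit pa = false ∧
      (∀ j > pa, a.testBit j = false) ∧ (∀ j > pb, b.testBit j = false) := by
  classical
  -- elements below 1024
  set T := W.filter (fun w => w < 1024) with hT
  have hTm : ∀ z, z ∈ T ↔ z ∈ W ∧ z < 1024 := by intro z; rw [hT, Finset.mem_filter]
  have hTcard : 8 ≤ T.card := by
    obtain ⟨y, -, hy⟩ := Finset.exists_le_card_fiber_of_mul_le_card_of_maps_to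
      (s := W) (t := Finset.range 8) (f := fun w => w / 1024) (n := 8)
      (by
        intro w hw
        rw [Finset.mem_range]
        have := h.Wlt w hw
        omega)
      ⟨0, by simp⟩ (by rw [h.Wcard]; simp)
    set Fb := W.filter (fun w => w / 1024 = y) with hFb
    have hne : Fb.Nonempty := Finset.card_pos.1 (by omega)
    obtain ⟨t0, ht0⟩ := hne
    rw [hFb, Finset.mem_filter] at ht0
    have : Fb.image (fun w => w ^^^ t0) ⊆ T := by
      intro z hz
      rw [Finset.mem_image] at hz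
      obtain ⟨w, hw, rfl⟩ := hz
      rw [hFb, Finset.mem_filter] at hw
      rw [hTm]
      exact ⟨h.Wxor w hw.1 t0 ht0.1, xor_div_1024 (by rw [hw.2, ht0.2])⟩
    have h2 := Finset.card_le_card this
    rw [Finset.card_image_of_injective _ Nat.xor_left_injective] at h2
    omega
  set U := T.filter (fun w => w.testBit 1 = false) with hU
  have hUm : ∀ z, z ∈ U ↔ (z ∈ W ∧ z < 1024) ∧ z.testBit 1 = false := by
    intro z; rw [hU, Finset.mem_filter, hTm]
  have hUcard : 4 ≤ U.card := by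
    have := halve T d 1 hd1 (by
      intro z hz
      rw [hTm] at hz ⊢
      exact ⟨h.Wxor z hz.1 d hd, Nat.xor_lt_two_pow (n := 10) hz.2 hd2⟩)
    rw [← hU] at this
    omega
  have hUx : ∀ a ∈ U, ∀ b ∈ U, a ^^^ b ∈ U := by
    intro a ha b hb
    rw [hUm] at ha hb ⊢
    refine ⟨⟨h.Wxor a ha.1.1 b hb.1.1, Nat.xor_lt_two_pow (n := 10) ha.1.2 hb.1.2⟩, ?_⟩
    rw [Nat.testBit_xor, ha.2, hb.2]; rfl
  have hU1 : 3 ≤ (U.erase 0).card := by
    have := Finset.pred_card_le_card_erase (s := U) (a := 0)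
    omega
  obtain ⟨a, ha, hamin⟩ := Finset.exists_min_image (U.erase 0) id (Finset.card_pos.1 (by omega))
  have hU2 : 2 ≤ ((U.erase 0).erase a).card := by
    have := Finset.pred_card_le_card_erase (s := U.erase 0) (a := a)
    omega
  obtain ⟨b, hb, hbmin⟩ := Finset.exists_min_image ((U.erase 0).erase a) id
    (Finset.card_pos.1 (by omega))
  simp only [id] at hamin hbmin
  rw [Finset.mem_erase] at ha
  rw [Finset.mem_erase, Finset.mem_erase] at hb
  obtain ⟨ha0, haU⟩ := ha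
  obtain ⟨hba, hb0, hbU⟩ := hb
  have haU' := (hUm a).1 haU
  have hbU' := (hUm b).1 hbU
  have hab : a ≤ b := hamin b (Finset.mem_erase.2 ⟨hb0, hbU⟩)
  have hpat : a.testBit a.log2 = true := Nat.testBit_log2 ha0
  have hpbt : b.testBit b.log2 = true := Nat.testBit_log2 hb0
  have hal : a < 2 ^ (a.log2 + 1) := Nat.lt_log2_self
  have hbl : b < 2 ^ (b.log2 + 1) := Nat.lt_log2_self
  have haj : ∀ j > a.log2, a.testBit j = false := by
    intro j hj
    apply Nat.testBit_lt_two_pow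
    exact lt_of_lt_of_le hal (Nat.pow_le_pow_right (by norm_num) hj)
  have hbj : ∀ j > b.log2, b.testBit j = false := by
    intro j hj
    apply Nat.testBit_lt_two_pow
    exact lt_of_lt_of_le hbl (Nat.pow_le_pow_right (by norm_num) hj)
  have hbpa : b.testBit a.log2 = false := by
    by_contra hc
    have hc' : b.testBit a.log2 = true := by simpa using hc
    have hlt : b ^^^ a < b := by
      apply Nat.lt_of_testBit a.log2
      · rw [Nat.testBit_xor, hc', hpat]; rfl
      · exact hc'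
      · intro j hj
        rw [Nat.testBit_xor, haj j hj]; simp
    have hne : b ^^^ a ≠ 0 := by
      intro h0
      exact hba (Nat.xor_eq_zero_iff.1 h0)
    have hne2 : b ^^^ a ≠ a := by
      intro h0
      apply hb0
      have : b ^^^ a ^^^ a = a ^^^ a := by rw [h0]
      rwa [Nat.xor_assoc, Nat.xor_self, Nat.xor_zero] at this
    have := hbmin (b ^^^ a) (Finset.mem_erase.2 ⟨hne2, Finset.mem_erase.2 ⟨hne, hUx b hbU a haU⟩⟩)
    omega
  have hplt : a.log2 < b.log2 := by
    by_contra hc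
    rcases Nat.lt_or_eq_of_le (not_lt.1 hc) with h1 | h1
    · have : 2 ^ (b.log2 + 1) ≤ 2 ^ a.log2 := Nat.pow_le_pow_right (by norm_num) h1
      have h2 : 2 ^ a.log2 ≤ a := Nat.ge_two_pow_of_testBit hpat
      omega
    · rw [h1] at hpbt
      rw [hpbt] at hbpa
      exact absurd hbpa (by simp)
  refine ⟨a, haU'.1.1, b, hbU'.1.1, a.log2, b.log2, ?_, hplt, ?_, haU'.2, hbU'.2, hpat, hpbt,
    hbpa, haj, hbj⟩
  · by_contra hc
    have h1 : a.log2 = 0 ∨ a.log2 = 1 := by omega
    rcases h1 with h1 | h1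
    · rw [h1] at hal
      have : a = 1 := by omega
      rw [this] at haU'
      exact h.one haU'.1.1
    · rw [h1] at hpat
      rw [hpat] at haU'
      exact absurd haU'.2 (by simp)
  · by_contra hc
    have h2 : 2 ^ b.log2 ≤ b := Nat.ge_two_pow_of_testBit hpbt
    have h3 : 2 ^ 10 ≤ 2 ^ b.log2 := Nat.pow_le_pow_right (by norm_num) (by omega)
    have := hbU'.1.2
    omega

theorem caseB_aux {W A : Finset ℕ} (h : Bad W A) {d X : ℕ} (hd : d ∈ W)
    (hd1 : d.testBit 1 = true) (hd2 : d < 1024)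
    (hX : ∀ z ∈ A, z.testBit 1 = false → X.testBit z = true)
    (hchk : ∀ pa pb, 2 ≤ pa → pa < pb → pb < 10 →
      stepA (M pa) (2 ^ pa) (M pb) (2 ^ pb) (bl (ia pa)) (bl (ib pa pb)) X = true) : False := by
  obtain ⟨a, haW, b, hbW, pa, pb, h2, hlt, hpb, ha1, hb1, hpat, hpbt, hbpa, haj, hbj⟩ :=
    exists_ab h hd hd1 hd2
  set A1 := A.filter (fun z => z.testBit 1 = false) with hA1
  have hA1m : ∀ z, z ∈ A1 ↔ z ∈ A ∧ z.testBit 1 = false := by
    intro z; rw [hA1, Finset.mem_filter]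
  have hc : A1.card = 32 := by
    have := halve A d 1 hd1 (fun z hz => h.AW z hz d hd)
    rw [← hA1, h.Acard] at this
    omega
  have key := stepA_false (A1 := A1) (X := X) (a := a) (b := b) (pa := pa) (pb := pb)
    (Ia := ia pa) (Ib := ib pa pb)
    (fun z hz => h.Alt z ((hA1m z).1 hz).1) hc
    (fun z hz => hX z ((hA1m z).1 hz).1 ((hA1m z).1 hz).2)
    (by
      intro p hp q hq z hz
      rw [hA1m] at hp hq hz ⊢
      refine ⟨h.AW z hz.1 _ (h.AA p hp.1 q hq.1), ?_⟩
      rw [Nat.testBit_xor, Nat.testBit_xor, hp.2, hq.2, hz.2]; rfl)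
    (by
      intro z hz
      rw [hA1m] at hz ⊢
      refine ⟨h.AW z hz.1 a haW, ?_⟩
      rw [Nat.testBit_xor, hz.2, ha1]; rfl)
    (by
      intro z hz
      rw [hA1m] at hz ⊢
      refine ⟨h.AW z hz.1 b hbW, ?_⟩
      rw [Nat.testBit_xor, hz.2, hb1]; rfl)
    hpat hpbt hbpa (by omega) (by omega)
    (by intro i hi; rw [mem_ia] at hi; omega)
    (by intro i hi; rw [mem_ib] at hi; omega)
    (by
      intro j hj
      rw [Nat.testBit_xor, Nat.testBit_two_pow] at hj
      rw [mem_ia]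
      rcases lt_trichotomy j pa with h3 | h3 | h3
      · refine ⟨h3, ?_⟩
        rintro rfl
        rw [ha1] at hj
        simp at hj
        omega
      · subst h3
        rw [hpat] at hj
        simp at hj
      · rw [haj j h3] at hj
        simp at hj
        omega)
    (by
      intro j hj
      rw [Nat.testBit_xor, Nat.testBit_two_pow] at hj
      rw [mem_ib]
      rcases lt_trichotomy j pb with h3 | h3 | h3
      · refine ⟨h3, ?_, ?_⟩
        · rintro rfl
          rw [hb1] at hj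
          simp at hj
          omega
        · rintro rfl
          rw [hbpa] at hj
          simp at hj
          omega
      · subst h3
        rw [hpbt] at hj
        simp at hj
      · rw [hbj j h3] at hj
        simp at hj
        omega)
    (h.Wlt a haW) (h.Wlt b hbW)
  rw [hchk pa pb h2 hlt hpb] at key
  exact absurd key (by simp)

theorem caseB2 {W A : Finset ℕ} (h : Bad W A) (hd : 2 ∈ W) : False := by
  apply caseB_aux h hd (by decide) (by norm_num) (X := X0) _ (fun pa pb => chk_X0)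
  intro z hz hz1
  have hlt := h.Alt z hz
  unfold X0
  have h1 := testBit_bf (i := 1) (by norm_num) (hM 1 (by norm_num)) GT z hlt
  have h1' : (bf m1 2 GT).testBit z = GT.testBit (z ^^^ 2) := h1
  have h2 : m1.testBit z = !(z.testBit 1) := hM 1 (by norm_num) z hlt
  rw [tland, tland, h1', h2, hz1, h.G z hz, h.G _ (h.AW z hz 2 hd)]
  rfl

theorem caseB3 {W A : Finset ℕ} (h : Bad W A) (hd : 3 ∈ W) : False := by
  apply caseB_aux h hd (by decide) (by norm_num) (X := X1) _ (fun pa pb => chk_X1)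
  intro z hz hz1
  have hlt := h.Alt z hz
  unfold X1
  have hlt2 : z ^^^ 2 < 8192 := xor_lt hlt (by norm_num)
  have h1 := testBit_bf (i := 1) (by norm_num) (hM 1 (by norm_num)) (bf m0 1 GT) z hlt
  have h1' : (bf m1 2 (bf m0 1 GT)).testBit z = (bf m0 1 GT).testBit (z ^^^ 2) := h1
  have h0 := testBit_bf (i := 0) (by norm_num) (hM 0 (by norm_num)) GT (z ^^^ 2) hlt2
  have h0' : (bf m0 1 GT).testBit (z ^^^ 2) = GT.testBit (z ^^^ 2 ^^^ 1) := h0
  have h2 : m1.testBit z = !(z.testBit 1) := hM 1 (by norm_num) z hlt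
  have h3 : z ^^^ 2 ^^^ 1 = z ^^^ 3 := by rw [Nat.xor_assoc]; rfl
  rw [tland, tland, h1', h0', h2, hz1, h.G z hz, h3, h.G _ (h.AW z hz 3 hd)]
  rfl

theorem caseB {W A : Finset ℕ} (h : Bad W A) (hw : ∃ w ∈ W, w ≠ 0 ∧ w < 128) : False := by
  obtain ⟨w, hw, hw0, hlt⟩ := hw
  have hw1 : w ≠ 1 := by rintro rfl; exact h.one hw
  have horb := orb_spec (y := w / 2) (by omega) (by omega)
  rcases Nat.mod_two_eq_zero_or_one w with h2 | h2
  · obtain ⟨n, hn⟩ := horb.1
    rw [show 2 * (w / 2) = w by omega] at hn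
    obtain ⟨W', A', h', hW, -, -⟩ := h.iter n
    have := hW w hw
    rw [hn] at this
    exact caseB2 h' this
  · obtain ⟨n, hn⟩ := horb.2
    rw [show 2 * (w / 2) + 1 = w by omega] at hn
    obtain ⟨W', A', h', hW, -, -⟩ := h.iter n
    have := hW w hw
    rw [hn] at this
    exact caseB3 h' this

end Pool.Agent.Lib.MP_17ab9e_co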