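import Pool.Agent.Lib.MP_17ab9e_co.Sound4
import Pool.Agent.Lib.MP_17ab9e_co.CheckA0
import Pool.Agent.Lib.MP_17ab9e_co.CheckA3

/-! The case where the group is a graph over the `x` coordinates. -/

namespace Pool.Agent.Lib.MP_17ab9e_co

theorem xor_div_128 (a b : ℕ) : (a ^^^ b) / 128 = a / 128 ^^^ b / 128 := by
  have h1 : (a ^^^ b) / 2 ^ 7 = a / 2 ^ 7 ^^^ b / 2 ^ 7 := Nat.xor_div_two_pow
  norm_num at h1
  exact h1

/-- every `x` coordinate occurs -/
theorem surj_W {W A : Finset ℕ} (h : Bad W A) (h0 : ∀ w ∈ W, w < 128 → w = 0) (k : ℕ)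
    (hk : k < 64) : ∃ w ∈ W, w / 128 = k := by
  have h1 : W.image (fun w => w / 128) = Finset.range 64 := by
    apply Finset.eq_of_subset_of_card_le
    · intro x hx
      rw [Finset.mem_image] at hx
      obtain ⟨w, hw, rfl⟩ := hx
      rw [Finset.mem_range]
      have := h.Wlt w hw
      omega
    · rw [Finset.card_range, Finset.card_image_of_injOn, h.Wcard]
      intro a ha b hb hab
      simp only at hab
      have h2 : (a ^^^ b) / 128 = 0 := by rw [xor_div_128, hab, Nat.xor_self]
      have h3 := h0 _ (h.Wxor a ha b hb) (by omega)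
      exact Nat.xor_eq_zero_iff.1 h3
  have h2 : k ∈ W.image (fun w => w / 128) := by rw [h1]; exact Finset.mem_range.2 hk
  rw [Finset.mem_image] at h2
  obtain ⟨w, hw, hw2⟩ := h2
  exact ⟨w, hw, hw2⟩

/-- shape of the schedule -/
def Lev : ℕ → List (ℕ × List ℕ) → Prop
  | 0, L => L = []
  | j + 1, L => ∃ T L', L = (128 * 2 ^ j, T) :: L' ∧ (∀ k ∈ T, k < 2 ^ (j + 1)) ∧ Lev j L'

theorem low7_bit {v : ℕ} (hv : v < 128) : low7.testBit v = true := by
  have : low7 = 2 ^ 128 - 1 := by decide +kernel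
  rw [this, Nat.testBit_two_pow_sub_one]
  simpa using hv

theorem lanes_true {T : List ℕ} {X : ℕ}
    (hT : ∀ k ∈ T, ∃ z, z / 128 = k ∧ X.testBit z = true) : lanes T X = true := by
  induction T with
  | nil => rfl
  | cons k T ih =>
    show (!(Nat.beq (Nat.land (Nat.shiftRight X (Nat.mul 128 k)) low7) 0) && lanes T X) = true
    rw [ih (fun k hk => hT k (List.mem_cons_of_mem _ hk))]
    obtain ⟨z, hz1, hz2⟩ := hT k (List.mem_cons_self ..)
    have h1 : (Nat.land (Nat.shiftRight X (Nat.mul 128 k)) low7).testBit (z % 128) = true := by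
      rw [tland, tshr, low7_bit (Nat.mod_lt _ (by norm_num))]
      have : Nat.mul 128 k + z % 128 = z := by
        show 128 * k + z % 128 = z
        omega
      rw [this, hz2]; rfl
    have h2 : Nat.beq (Nat.land (Nat.shiftRight X (Nat.mul 128 k)) low7) 0 = false := by
      rw [Bool.eq_false_iff]
      intro hc
      rw [beq0_iff] at hc
      rw [hc] at h1
      simp at h1
    rw [h2]; rfl

theorem xor_split {j z v : ℕ} (hz : z < 128 * 2 ^ j) (hv : v < 128) :
    z ^^^ (128 * 2 ^ j + v) = 128 * 2 ^ j + (z ^^^ v) := by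
  have hs : 128 * 2 ^ j = 2 ^ (7 + j) := by rw [pow_add]; norm_num
  rw [hs] at hz ⊢
  have hv2 : v < 2 ^ (7 + j) := lt_of_lt_of_le hv (by
    calc 128 = 2 ^ 7 := by norm_num
      _ ≤ 2 ^ (7 + j) := Nat.pow_le_pow_right (by norm_num) (by omega))
  have h1 : v.testBit (7 + j) = false := Nat.testBit_lt_two_pow hv2
  have h2 : (z ^^^ v).testBit (7 + j) = false :=
    Nat.testBit_lt_two_pow (Nat.xor_lt_two_pow hz hv2)
  rw [add_eq_xor h1, add_eq_xor h2, ← Nat.xor_assoc, Nat.xor_comm z, Nat.xor_assoc]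

theorem dfs_false {W A : Finset ℕ} (h : Bad W A) (h0 : ∀ w ∈ W, w < 128 → w = 0) {g : ℕ}
    (hg : g ∈ A) (hglt : g < 128) (j : ℕ) : ∀ (L : List (ℕ × List ℕ)) (X : ℕ), j ≤ 6 → Lev j L →
      (∀ z ∈ A, z < 128 * 2 ^ j → X.testBit z = true) → dfs L g X = false := by
  induction j with
  | zero =>
    intro L X _ hL _
    have : L = [] := hL
    subst this
    rfl
  | succ j ih =>
    intro L X hj hL hX
    obtain ⟨T, L', rfl, hT, hL'⟩ := hL
    set s := 128 * 2 ^ j with hs
    have hs2 : 128 * 2 ^ (j + 1) = 2 * s := by rw [hs, pow_succ]; ring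
    have hjlt : (2 : ℕ) ^ j < 64 := by
      calc (2 : ℕ) ^ j < 2 ^ 6 := Nat.pow_lt_pow_right (by norm_num) (by omega)
        _ = 64 := by norm_num
    have hj1lt : (2 : ℕ) ^ (j + 1) ≤ 64 := by
      calc (2 : ℕ) ^ (j + 1) ≤ 2 ^ 6 := Nat.pow_le_pow_right (by norm_num) (by omega)
        _ = 64 := by norm_num
    have hpos : 0 < (2 : ℕ) ^ j := by positivity
    obtain ⟨w, hw, hwk⟩ := surj_W h h0 (2 ^ j) hjlt
    set v := w % 128 with hv
    have hvlt : v < 128 := Nat.mod_lt _ (by norm_num)
    have hwv : w = s + v := by omega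
    rw [Bool.eq_false_iff]
    intro hd
    have hd' : (!(lanes T X) || (Nat.beq (Nat.land (sh bits7 g (Nat.shiftRight X s)) low7) 0 ||
      treeA bits7 (fun S => dfs L' g (Nat.land X S))
        (Nat.land (sh bits7 g (Nat.shiftRight X s)) low7) (Nat.shiftRight X s))) = true := hd
    have hlan : lanes T X = true := by
      apply lanes_true
      intro k hk
      have hk2 := hT k hk
      obtain ⟨w', hw', hwk'⟩ := surj_W h h0 k (by omega)
      refine ⟨g ^^^ w', ?_, ?_⟩
      · rw [xor_div_128, hwk', show g / 128 = 0 by omega, Nat.zero_xor]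
      · apply hX _ (h.AW g hg w' hw')
        have h5 : (g ^^^ w') / 128 < 2 ^ (j + 1) := by
          rw [xor_div_128, hwk', show g / 128 = 0 by omega, Nat.zero_xor]
          exact hk2
        omega
    have hgs : g < s := by omega
    have hal : (Nat.land (sh bits7 g (Nat.shiftRight X s)) low7).testBit v = true := by
      rw [tland, low7_bit hvlt, tr_sh7 hM hglt (Nat.shiftRight X s) v (by omega), tshr]
      have h5 : s + (v ^^^ g) = g ^^^ w := by
        rw [hwv, xor_split hgs hvlt, Nat.xor_comm v g]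
      rw [h5, Bool.and_true]
      apply hX _ (h.AW g hg w hw)
      rw [← h5, hs2]
      have : v ^^^ g < 2 ^ 7 := Nat.xor_lt_two_pow hvlt hglt
      omega
    have hbeq : Nat.beq (Nat.land (sh bits7 g (Nat.shiftRight X s)) low7) 0 = false := by
      rw [Bool.eq_false_iff]
      intro hc
      rw [beq0_iff] at hc
      rw [hc] at hal
      simp at hal
    rw [hlan, hbeq, Bool.not_true, Bool.false_or, Bool.false_or] at hd'
    rw [bits7_eq] at hd'
    obtain ⟨S', hS', hf⟩ := treeA_spec [0, 1, 2, 3, 4, 5, 6] (by decide) hM _ _ _ hd' v (by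
      intro i hi
      have : i < 7 := by
        by_contra hc
        have h6 : v.testBit i = false := by
          apply Nat.testBit_lt_two_pow
          calc v < 2 ^ 7 := hvlt
            _ ≤ 2 ^ i := Nat.pow_le_pow_right (by norm_num) (by omega)
        rw [h6] at hi
        exact absurd hi (by simp)
      simp only [List.mem_cons, List.not_mem_nil, or_false]
      omega) (by rw [← bits7_eq]; exact hal)
    rw [ih L' _ (by omega) hL'] at hf
    · exact absurd hf (by simp)
    · intro z hz hzs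
      rw [tland, hX z hz (by omega), hS' z (h.Alt z hz), tshr]
      have h5 : s + (z ^^^ v) = z ^^^ w := by
        rw [hwv, xor_split hzs hvlt]
      rw [h5, Bool.true_and]
      apply hX _ (h.AW z hz w hw)
      rw [← h5, hs2]
      have hzv : z ^^^ v < s := by
        have hs3 : s = 2 ^ (7 + j) := by rw [hs, pow_add]; norm_num
        rw [hs3] at hzs ⊢
        exact Nat.xor_lt_two_pow hzs (by omega)
      omega

theorem lev_sched : Lev 6 sched := by
  refine ⟨[], _, rfl, by simp, [], _, rfl, by simp, [], _, rfl, by simp,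
    [1, 2, 4, 3, 5, 6, 7], _, rfl, by simp, [1, 2, 3], _, rfl, by simp, [], _, rfl, by simp, rfl⟩

theorem GT_low : (List.range 128).all (fun g => !(GT.testBit g) || (g == 0) ||
    (g % 2 == 1 && !(g == 1))) = true := by
  decide +kernel

theorem caseA_aux {W A : Finset ℕ} (h : Bad W A) (h0 : ∀ w ∈ W, w < 128 → w = 0) {g : ℕ}
    (hg : g ∈ A) (hglt : g < 128) (hd : dfs sched g GT = true) : False := by
  rw [dfs_false h h0 hg hglt 6 sched GT le_rfl lev_sched (fun z hz _ => h.G z hz)] at hd
  exact absurd hd (by simp)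

theorem caseA {W A : Finset ℕ} (h : Bad W A) (h0 : ∀ w ∈ W, w < 128 → w = 0) : False := by
  obtain ⟨z0, hz0⟩ := h.Ane
  obtain ⟨w, hw, hwk⟩ := surj_W h h0 (z0 / 128) (by have := h.Alt z0 hz0; omega)
  have hgA : z0 ^^^ w ∈ A := h.AW z0 hz0 w hw
  have hglt : z0 ^^^ w < 128 := by
    have : (z0 ^^^ w) / 128 = 0 := by rw [xor_div_128, hwk, Nat.xor_self]
    omega
  set g := z0 ^^^ w with hg
  have h1 := GT_low
  rw [List.all_eq_true] at h1
  have h2 := h1 g (List.mem_range.2 hglt)
  rw [h.G g hgA] at h2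
  simp only [Bool.not_true, Bool.false_or, Bool.or_eq_true, beq_iff_eq, Bool.and_eq_true,
    Bool.not_eq_true', beq_eq_false_iff_ne] at h2
  rcases h2 with h2 | ⟨h2, h3⟩
  · rw [h2] at hgA
    exact caseA_aux h h0 hgA (by norm_num) tA0
  · obtain ⟨n, hn⟩ := (orb_spec (y := g / 2) (by omega) (by omega)).2
    rw [show 2 * (g / 2) + 1 = g by omega] at hn
    obtain ⟨W', A', h', -, hA, hz⟩ := h.iter n
    have h4 := hA g hgA
    rw [hn] at h4
    exact caseA_aux h' (hz h0) h4 (by norm_num) tA3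

/-- There is no six dimensional flat in the graph. -/
theorem no_bad (W A : Finset ℕ) : ¬ Bad W A := by
  intro h
  by_cases hc : ∃ w ∈ W, w ≠ 0 ∧ w < 128
  · exact caseB h hc
  · apply caseA h
    intro w hw hlt
    by_contra h1
    exact hc ⟨w, hw, h1, hlt⟩

end Pool.Agent.Lib.MP_17ab9e_co
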